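import Pool.Agent.Lib.MP_562b47_mp.GX.Lim
import Pool.Agent.Lib.MP_562b47_mp.SX.Defs

/-!
MP_562b47, slabs: the boxes `{0, ..., n - 1}^d × F`.
-/

namespace Pool.Agent.Lib.MP_562b47_mp.SG

open Pool.Agent.Lib.MP_562b47_mp

variable {d : ℕ} {F : Type} [Fintype F] [DecidableEq F] [SX.Thin F]

/-- positions of the sites of the box of side `n` -/
def bp (d n : ℕ) (x : (Fin d → Fin n) × F) : SX.St d F := (GX.bp d n x.1, x.2)

/-- the matrix of the box of side `n` -/
def Ab (d : ℕ) (F : Type) [Fintype F] [DecidableEq F] [SX.Thin F] (κ E : ℝ) (n : ℕ) :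
    Matrix ((Fin d → Fin n) × F) ((Fin d → Fin n) × F) ℝ :=
  Matrix.of fun x y => if x = y then 2 * d + κ - E else
    if SX.adj (bp d n x) (bp d n y) then -1 else 0

/-- coordinates in the box of side `n` -/
def xb (d : ℕ) (F : Type) [DecidableEq F] (n : ℕ) (j : Fin d ⊕ F) (x : (Fin d → Fin n) × F) : ℝ :=
  Sum.elim (fun j => ((x.1 j : ℕ) : ℝ)) (fun h => if x.2 = h then 1 else 0) j

omit [Fintype F] [DecidableEq F] [SX.Thin F] in
theorem bp_inj (d n : ℕ) : Function.Injective (bp (F := F) d n) := by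
  intro x y h
  have h1 := congrArg Prod.fst h
  have h2 := congrArg Prod.snd h
  exact Prod.ext (GX.bp_inj d n h1) h2

end Pool.Agent.Lib.MP_562b47_mp.SG
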