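import Mathlib
import Pool.Agent.Lib.MP_562b47_mp.SG.Sum
import Pool.Agent.Lib.MP_562b47_mp.SG.Lim

/-!
MP_562b47, slabs over `ℤ²`: the local Pólya criterion, and the end of the assembly.
-/

open MeasureTheory Set Filter Topology Complex
open scoped Real ENNReal NNReal InnerProductSpace

set_option linter.unusedSectionVars false

namespace Pool.Agent.Lib.MP_562b47_mp.SG

open Pool.Agent.Lib.MP_562b47_mp.QP Pool.Agent.Lib.MP_562b47_mp.QL

section

variable {Λ : Type*} [DecidableEq Λ] [Countable Λ] {E : Type*}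
  [NormedAddCommGroup E] [InnerProductSpace ℂ E] [CompleteSpace E] {c : ℝ} {e : Λ → E}
  {H : (Λ → ℝ) → (E →L[ℂ] E)}

/-- the part of the norm outside of `B` -/
theorem out_parseval' (M : Model c e H) (B : Finset Λ) (u : E) :
    ENNReal.ofReal (‖u‖ ^ 2 - ∑ y ∈ B, ‖⟪e y, u⟫_ℂ‖ ^ 2)
      = ∑' y : Λ, (if y ∈ B then 0 else ‖⟪e y, u⟫_ℂ‖ₑ ^ 2) := by
  have h1 := M.parseval_norm u
  have h2 : HasSum (fun y => if y ∈ B then ‖⟪e y, u⟫_ℂ‖ ^ 2 else 0)
      (∑ y ∈ B, ‖⟪e y, u⟫_ℂ‖ ^ 2) := by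
    have h3 : HasSum (fun y => if y ∈ B then ‖⟪e y, u⟫_ℂ‖ ^ 2 else 0)
        (∑ y ∈ B, (if y ∈ B then ‖⟪e y, u⟫_ℂ‖ ^ 2 else 0)) :=
      hasSum_sum_of_ne_finset_zero (fun y hy => if_neg hy)
    have h4 : ∑ y ∈ B, (if y ∈ B then ‖⟪e y, u⟫_ℂ‖ ^ 2 else 0) = ∑ y ∈ B, ‖⟪e y, u⟫_ℂ‖ ^ 2 :=
      Finset.sum_congr rfl fun y hy => if_pos hy
    rw [h4] at h3
    exact h3
  have h3 := h1.sub h2
  have h4 : ∀ y, ‖⟪e y, u⟫_ℂ‖ ^ 2 - (if y ∈ B then ‖⟪e y, u⟫_ℂ‖ ^ 2 else 0)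
      = if y ∈ B then 0 else ‖⟪e y, u⟫_ℂ‖ ^ 2 := by
    intro y
    split_ifs <;> simp
  simp_rw [h4] at h3
  rw [← h3.tsum_eq, ENNReal.ofReal_tsum_of_nonneg (fun y => by positivity) h3.summable]
  refine tsum_congr fun y => ?_
  split_ifs
  · simp
  · rw [ENNReal.ofReal_pow (norm_nonneg _), ofReal_norm]


end

variable {d : ℕ} {F : Type} [Fintype F] [DecidableEq F] [SX.Thin F]

/-- the cube times the cross-section -/
noncomputable def cubeS (d : ℕ) (F : Type) [Fintype F] (R : ℕ) : Finset (SX.St d F) :=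
  cube d R ×ˢ Finset.univ

theorem card_cubeS (d : ℕ) (F : Type) [Fintype F] (R : ℕ) :
    (cubeS d F R).card = (2 * R + 1) ^ d * Fintype.card F := by
  unfold cubeS
  rw [Finset.card_product, card_cube, Finset.card_univ]

theorem sq_le_of_notMemS {R : ℕ} {x : SX.St d F} (hx : x ∉ cubeS d F R) :
    (R : ℝ) ^ 2 ≤ ∑ i, (x.1 i : ℝ) ^ 2 := by
  refine sq_le_of_notMem (x := x.1) fun h => hx ?_
  unfold cubeS
  exact Finset.mem_product.mpr ⟨h, Finset.mem_univ _⟩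

/-- the origin over `o` -/
abbrev oS (d : ℕ) {F : Type} (o : F) : SX.St d F := ((0 : Fin d → ℤ), o)

theorem sql_ward {κ c : ℝ} (hc : 0 < c) (o : F) {z : ℂ} (hz : 0 < z.im) (B : Finset (SX.St d F))
    (ω : SX.St d F → ℝ) :
    ENNReal.ofReal ((Gr eb (HS κ c) ω z (oS d o) (oS d o)).im
        - z.im * ∑ y ∈ B, ‖Gr eb (HS κ c) ω z (oS d o) y‖ ^ 2)
      = ENNReal.ofReal z.im * ∑' y : SX.St d F,
        (if y ∈ B then 0 else ‖Gr eb (HS κ c) ω z (oS d o) y‖ₑ ^ 2) := by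
  set M := modelS d F κ hc with hM
  have h1 : (Gr eb (HS κ c) ω z (oS d o) (oS d o)).im 
      = z.im * ‖Rv (HS κ c ω) z (eb (oS d o))‖ ^ 2 := im_inner_Rv (M.sa ω) hz.ne' (eb (oS d o))
  have h2 : ∀ y, Gr eb (HS κ c) ω z (oS d o) y = ⟪eb y, Rv (HS κ c ω) z (eb (oS d o))⟫_ℂ :=
    fun y => by rw [M.Gr_symm ω hz (oS d o) y]; rfl
  simp_rw [h1, h2]
  rw [← out_parseval' M B, ← ENNReal.ofReal_mul hz.le]
  congr 1
  ring

theorem sql_out {κ c : ℝ} (hc : 0 < c) {o : F} {z : ℂ} (hz : 0 < z.im) {R : ℕ} (hR : 0 < R) {a : ℝ} (ha : 0 ≤ a)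
    (h : DE d κ c o z ≤ ENNReal.ofReal a) :
    ∫ ω, ((Gr eb (HS κ c) ω z (oS d o) (oS d o)).im
        - z.im * ∑ y ∈ cubeS d F R, ‖Gr eb (HS κ c) ω z (oS d o) y‖ ^ 2) ∂(PP (SX.St d F) c)
      ≤ z.im * a / (R:ℝ) ^ 2 := by
  set M := modelS d F κ hc with hM
  have hR0 : (0:ℝ) < (R:ℝ) ^ 2 := by positivity
  have hnn : ∀ ω, 0 ≤ (Gr eb (HS κ c) ω z (oS d o) (oS d o)).im
        - z.im * ∑ y ∈ cubeS d F R, ‖Gr eb (HS κ c) ω z (oS d o) y‖ ^ 2 := fun ω => by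
    have := ward_G M (oS d o) ω hz (cubeS d F R)
    linarith
  have hcont : Continuous fun ω => (Gr eb (HS κ c) ω z (oS d o) (oS d o)).im
        - z.im * ∑ y ∈ cubeS d F R, ‖Gr eb (HS κ c) ω z (oS d o) y‖ ^ 2 := by
    refine (Complex.continuous_im.comp (M.continuous_Gr continuous_id continuous_const
      (fun _ => hz) (oS d o) (oS d o))).sub (continuous_const.mul (continuous_finsetSum _ fun y _ => ?_))
    exact (M.continuous_Gr continuous_id continuous_const (fun _ => hz) (oS d o) y).norm.pow 2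
  rw [integral_eq_lintegral_of_nonneg_ae (ae_of_all _ hnn) hcont.aestronglyMeasurable]
  refine ENNReal.toReal_le_of_le_ofReal (by positivity) ?_
  have h1 : ENNReal.ofReal ((R:ℝ) ^ 2) * ∫⁻ ω, ENNReal.ofReal ((Gr eb (HS κ c) ω z (oS d o) (oS d o)).im
        - z.im * ∑ y ∈ cubeS d F R, ‖Gr eb (HS κ c) ω z (oS d o) y‖ ^ 2) ∂(PP (SX.St d F) c)
      ≤ ENNReal.ofReal z.im * DE d κ c o z := by
    unfold DE
    rw [← lintegral_const_mul' _ _ ENNReal.ofReal_ne_top,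
      ← lintegral_const_mul' _ _ ENNReal.ofReal_ne_top]
    refine lintegral_mono fun ω => ?_
    rw [sql_ward hc o hz, mul_left_comm]
    refine mul_le_mul' le_rfl ?_
    rw [← ENNReal.tsum_mul_left]
    refine ENNReal.tsum_le_tsum fun x => ?_
    by_cases hx : x ∈ cubeS d F R
    · simp [hx]
    · rw [if_neg hx]
      gcongr
      exact sq_le_of_notMemS hx
  have h2 : ENNReal.ofReal ((R:ℝ) ^ 2) * ∫⁻ ω, ENNReal.ofReal ((Gr eb (HS κ c) ω z (oS d o) (oS d o)).im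
        - z.im * ∑ y ∈ cubeS d F R, ‖Gr eb (HS κ c) ω z (oS d o) y‖ ^ 2) ∂(PP (SX.St d F) c)
      ≤ ENNReal.ofReal ((R:ℝ) ^ 2) * ENNReal.ofReal (z.im * a / (R:ℝ) ^ 2) := by
    refine h1.trans ?_
    rw [← ENNReal.ofReal_mul hR0.le]
    calc ENNReal.ofReal z.im * DE d κ c o z ≤ ENNReal.ofReal z.im * ENNReal.ofReal a := by gcongr
      _ = ENNReal.ofReal ((R:ℝ) ^ 2 * (z.im * a / (R:ℝ) ^ 2)) := by
          rw [← ENNReal.ofReal_mul hz.le]
          congr 1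
          field_simp
  exact (ENNReal.mul_le_mul_iff_right (ENNReal.ofReal_pos.mpr hR0).ne' ENNReal.ofReal_ne_top).mp h2

/-- **Local Pólya criterion.** -/
theorem local_sing {κ c : ℝ} (hc : 0 < c) (o : F) {S : Set ℝ} (hS : MeasurableSet S) {C η₁ : ℝ}
    (hη₁ : 0 < η₁)
    (h : ∀ E ∈ S, ∀ η : ℝ, 0 < η → η < η₁ →
      DE 2 κ c o ⟨E, η⟩ ≤ ENNReal.ofReal (C * (1 + Real.log (1 / η)) / η ^ 2)) :
    ∀ᵐ ω ∂(PP (SX.St 2 F) c), ∀ μ : Measure ℝ, IsFiniteMeasure μ →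
      IsSpec (HS κ c ω) (eb (oS 2 o)) μ → NoAC μ S := by
  have := PP_prob (SX.St 2 F) hc
  set M := modelS 2 F κ hc with hM
  by_contra hns
  obtain ⟨q₁, hq₁, hq₁1, C', n₀, hC', hsum⟩ := main_sum M (HS_bdd κ c) (oS 2 o) hns
  -- a positive constant instead of `C`
  set C₁ : ℝ := max C 1 with hC₁
  have hC₁1 : 1 ≤ C₁ := le_max_right _ _
  obtain ⟨n₁, hn₁⟩ : ∃ n₁ : ℕ, len c n₁ < min η₁ 1 := by
    have h1 : Tendsto (fun n : ℕ => c * (1/2 : ℝ) ^ n) atTop (𝓝 (c * 0)) :=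
      (tendsto_pow_atTop_nhds_zero_of_lt_one (by norm_num) (by norm_num)).const_mul c
    rw [mul_zero] at h1
    obtain ⟨n, hn⟩ := (h1.eventually (gt_mem_nhds (show (0:ℝ) < min η₁ 1 by positivity))).exists
    refine ⟨n, ?_⟩
    unfold len
    have : c / 2 ^ n = c * (1/2 : ℝ) ^ n := by rw [div_eq_mul_inv, one_div, inv_pow]
    rw [this]; exact hn
  have hlen : ∀ n, n₁ ≤ n → len c n < min η₁ 1 := by
    intro n hn
    refine lt_of_le_of_lt ?_ hn₁
    unfold len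
    exact div_le_div_of_nonneg_left hc.le (by positivity) (pow_le_pow_right₀ (by norm_num) hn)
  set a : ℕ → ℝ := fun n => 2 * C₁ * (1 + Real.log (1 / len c n)) / (q₁ * len c n) with ha
  set R : ℕ → ℕ := fun n => ⌈√(a n)⌉₊ with hR
  have hlog : ∀ n, n₁ ≤ n → 0 ≤ Real.log (1 / len c n) := by
    intro n hn
    have h1 := hlen n hn
    have h2 := len_pos hc n
    apply Real.log_nonneg
    rw [le_div_iff₀ h2, one_mul]
    exact h1.le.trans (min_le_right _ _)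
  have ha0 : ∀ n, n₁ ≤ n → 0 < a n := by
    intro n hn
    have h1 := hlog n hn
    have h2 := len_pos hc n
    simp only [ha]
    positivity
  have hRpos : ∀ n, n₁ ≤ n → 0 < R n := by
    intro n hn
    simp only [hR]
    exact Nat.ceil_pos.mpr (Real.sqrt_pos.mpr (ha0 n hn))
  have hRa : ∀ n, n₁ ≤ n → a n ≤ (R n : ℝ) ^ 2 := by
    intro n hn
    have h1 : √(a n) ≤ (R n : ℝ) := Nat.le_ceil _
    have h2 := Real.sqrt_nonneg (a n)
    have h3 := Real.sq_sqrt (ha0 n hn).le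
    nlinarith
  have hout : ∀ n, n₁ ≤ n → ∫ u in S, (∫ ω, ((Gr eb (HS κ c) ω (⟨u, len c n⟩ : ℂ) (oS 2 o) (oS 2 o)).im
            - len c n * ∑ y ∈ cubeS 2 F (R n), ‖Gr eb (HS κ c) ω (⟨u, len c n⟩ : ℂ) (oS 2 o) y‖ ^ 2)
              ∂(PP (SX.St 2 F) c)) ∂kap ≤ q₁ / 2 := by
    intro n hn
    have hl := len_pos hc n
    have hlg := hlog n hn
    have h1 : ∀ u ∈ S, (∫ ω, ((Gr eb (HS κ c) ω (⟨u, len c n⟩ : ℂ) (oS 2 o) (oS 2 o)).im
            - len c n * ∑ y ∈ cubeS 2 F (R n), ‖Gr eb (HS κ c) ω (⟨u, len c n⟩ : ℂ) (oS 2 o) y‖ ^ 2)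
              ∂(PP (SX.St 2 F) c)) ≤ q₁ / 2 := by
      intro u hu
      have h2 := h u hu (len c n) hl ((hlen n hn).trans_le (min_le_left _ _))
      have h3 : DE 2 κ c o ⟨u, len c n⟩
          ≤ ENNReal.ofReal (C₁ * (1 + Real.log (1 / len c n)) / len c n ^ 2) := by
        refine h2.trans (ENNReal.ofReal_le_ofReal ?_)
        gcongr
        exact le_max_left _ _
      have h4 := sql_out hc (z := (⟨u, len c n⟩ : ℂ)) hl (hRpos n hn) (by positivity) h3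
      refine h4.trans ?_
      have h5 := hRa n hn
      have h6 : (0:ℝ) < (R n : ℝ) ^ 2 := lt_of_lt_of_le (ha0 n hn) h5
      rw [div_le_iff₀ h6]
      have h7 : (⟨u, len c n⟩ : ℂ).im * (C₁ * (1 + Real.log (1 / len c n)) / len c n ^ 2)
          = q₁ / 2 * a n := by
        simp only [ha]
        field_simp
      rw [h7]
      gcongr
    have hmass : ∫ _u in S, q₁ / 2 ∂kap ≤ q₁ / 2 := by
      rw [setIntegral_const, smul_eq_mul]
      have : kap.real S ≤ 1 := measureReal_le_one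
      nlinarith
    refine le_trans (integral_mono_of_nonneg (ae_of_all _ fun u => ?_)
      (integrable_const _) ((ae_restrict_iff' hS).mpr (ae_of_all _ fun u hu => h1 u hu))) hmass
    refine integral_nonneg fun ω => ?_
    have := ward_G M (oS 2 o) ω (z := (⟨u, len c n⟩ : ℂ)) hl (cubeS 2 F (R n))
    simp only [Pi.zero_apply]
    exact sub_nonneg.mpr this
  -- size of the cubes
  obtain ⟨A, hA0, hA⟩ : ∃ A : ℝ, 0 < A ∧ ∀ n, n₁ ≤ n →
      1 / (A * ((n:ℝ) + 1)) ≤ (2:ℝ) ^ n / (cubeS 2 F (R n)).card := by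
    set b : ℝ := 1 + |Real.log c| + Real.log 2 with hb
    have hb0 : 0 < b := by
      have := Real.log_pos (by norm_num : (1:ℝ) < 2)
      positivity
    have hF0 : 0 < Fintype.card F := Fintype.card_pos_iff.mpr ⟨o⟩
    set f : ℝ := (Fintype.card F : ℝ) with hf
    have hf0 : 0 < f := by rw [hf]; exact_mod_cast hF0
    refine ⟨(16 * C₁ * b / (q₁ * c) + 18) * f, by positivity, fun n hn => ?_⟩
    have hl := len_pos hc n
    have h1 : ((cubeS 2 F (R n)).card : ℝ) ≤ (8 * a n + 18) * f := by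
      rw [card_cubeS]
      push_cast
      rw [← hf]
      refine mul_le_mul_of_nonneg_right ?_ hf0.le
      have h2 : (R n : ℝ) ≤ √(a n) + 1 := (Nat.ceil_lt_add_one (Real.sqrt_nonneg _)).le
      have h3 := Real.sq_sqrt (ha0 n hn).le
      have h4 := Real.sqrt_nonneg (a n)
      have h5 : (0:ℝ) ≤ R n := Nat.cast_nonneg _
      calc (2 * (R n : ℝ) + 1) ^ 2 ≤ (2 * (√(a n) + 1) + 1) ^ 2 := by gcongr
        _ ≤ 8 * √(a n) ^ 2 + 18 := by nlinarith [sq_nonneg (2 * √(a n) - 3)]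
        _ = 8 * a n + 18 := by rw [h3]
    have h2 : a n ≤ 2 * C₁ * b / (q₁ * c) * (((n:ℝ) + 1) * 2 ^ n) := by
      have h3 : Real.log (1 / len c n) ≤ |Real.log c| + n * Real.log 2 := by
        unfold len
        rw [one_div_div, Real.log_div (by positivity) hc.ne', Real.log_pow]
        have := neg_abs_le (Real.log c)
        linarith
      have h4 : 1 + Real.log (1 / len c n) ≤ b * ((n:ℝ) + 1) := by
        have hn0 : (0:ℝ) ≤ n := Nat.cast_nonneg _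
        have hl2 := Real.log_pos (by norm_num : (1:ℝ) < 2)
        have habs := abs_nonneg (Real.log c)
        rw [hb]
        nlinarith [mul_nonneg hn0 habs]
      have h5 : a n = 2 * C₁ * (1 + Real.log (1 / len c n)) / (q₁ * c) * 2 ^ n := by
        simp only [ha]
        unfold len
        field_simp
      rw [h5]
      calc 2 * C₁ * (1 + Real.log (1 / len c n)) / (q₁ * c) * 2 ^ n
          ≤ 2 * C₁ * (b * ((n:ℝ) + 1)) / (q₁ * c) * 2 ^ n := by gcongr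
        _ = 2 * C₁ * b / (q₁ * c) * (((n:ℝ) + 1) * 2 ^ n) := by ring
    have h3 : ((cubeS 2 F (R n)).card : ℝ)
        ≤ (16 * C₁ * b / (q₁ * c) + 18) * f * ((n:ℝ) + 1) * 2 ^ n := by
      have h4 : (1:ℝ) ≤ ((n:ℝ) + 1) * 2 ^ n := by
        have hn0 : (0:ℝ) ≤ n := Nat.cast_nonneg _
        have h5 : (1:ℝ) ≤ 2 ^ n := one_le_pow₀ (by norm_num)
        nlinarith
      calc ((cubeS 2 F (R n)).card : ℝ) ≤ (8 * a n + 18) * f := h1
        _ ≤ (8 * (2 * C₁ * b / (q₁ * c) * (((n:ℝ) + 1) * 2 ^ n))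
              + 18 * (((n:ℝ) + 1) * 2 ^ n)) * f := by
            gcongr
            linarith
        _ = _ := by ring
    have hcard : (0:ℝ) < (cubeS 2 F (R n)).card := by
      rw [card_cubeS]; positivity
    rw [div_le_div_iff₀ (by positivity) hcard, one_mul]
    calc ((cubeS 2 F (R n)).card : ℝ)
        ≤ (16 * C₁ * b / (q₁ * c) + 18) * f * ((n:ℝ) + 1) * 2 ^ n := h3
      _ = 2 ^ n * ((16 * C₁ * b / (q₁ * c) + 18) * f * ((n:ℝ) + 1)) := by ring
  -- divergence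
  set m := max n₀ n₁ with hm
  have hdiv := Real.tendsto_sum_range_one_div_nat_succ_atTop
  obtain ⟨N, hN⟩ := (hdiv.eventually_gt_atTop
    (A * C' + ∑ i ∈ Finset.range m, (1 / ((i:ℝ) + 1)))).exists
  have hfin := hsum (Finset.Ico m N) (fun n => cubeS 2 F (R n))
    (fun n hn => (le_max_left _ _).trans (Finset.mem_Ico.mp hn).1)
    (fun n hn => hout n ((le_max_right _ _).trans (Finset.mem_Ico.mp hn).1))
  have h1 : ∑ n ∈ Finset.Ico m N, 1 / (A * ((n:ℝ) + 1)) ≤ C' := by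
    refine le_trans (Finset.sum_le_sum fun n hn => ?_) hfin
    exact hA n ((le_max_right _ _).trans (Finset.mem_Ico.mp hn).1)
  have h2 : ∑ n ∈ Finset.Ico m N, 1 / ((n:ℝ) + 1) ≤ A * C' := by
    have h3 : ∑ n ∈ Finset.Ico m N, 1 / ((n:ℝ) + 1)
        = A * ∑ n ∈ Finset.Ico m N, 1 / (A * ((n:ℝ) + 1)) := by
      rw [Finset.mul_sum]
      refine Finset.sum_congr rfl fun n _ => ?_
      field_simp
    rw [h3]
    gcongr
  have h3 : ∑ i ∈ Finset.range N, 1 / ((i:ℝ) + 1)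
      ≤ ∑ i ∈ Finset.range m, 1 / ((i:ℝ) + 1) + ∑ n ∈ Finset.Ico m N, 1 / ((n:ℝ) + 1) := by
    rw [← Finset.sum_union]
    · refine Finset.sum_le_sum_of_subset_of_nonneg ?_ fun i _ _ => by positivity
      intro i hi
      rw [Finset.mem_union, Finset.mem_range, Finset.mem_Ico]
      rw [Finset.mem_range] at hi
      omega
    · rw [Finset.disjoint_left]
      intro i hi hi'
      rw [Finset.mem_range] at hi
      rw [Finset.mem_Ico] at hi'
      omega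
  linarith


end Pool.Agent.Lib.MP_562b47_mp.SG
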