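import Mathlib
import Pool.Agent.Lib.MP_562b47_mp.SG.Fin

/-!
MP_562b47, slabs over `ℤ²`, end of the assembly: local box bounds at all energies imply that the
Anderson operator is almost surely purely singular.
-/

open MeasureTheory Set Filter Topology Complex
open scoped Real ENNReal NNReal InnerProductSpace

set_option linter.unusedSectionVars false

namespace Pool.Agent.Lib.MP_562b47_mp.SG

open Pool.Agent.Lib.MP_562b47_mp.QP Pool.Agent.Lib.MP_562b47_mp.QL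

section

variable {Λ : Type*} [DecidableEq Λ] {E : Type*}
  [NormedAddCommGroup E] [InnerProductSpace ℂ E] [CompleteSpace E] {c : ℝ} {e : Λ → E}
  {H : (Λ → ℝ) → (E →L[ℂ] E)}

theorem singV_all' (M : Model c e H) {ω : Λ → ℝ} (h : ∀ x, SingV (H ω) (e x)) (u : E) :
    SingV (H ω) u := by
  refine singV_of_approx (M.sa ω) fun ε hε => ?_
  have h1 : Tendsto (fun s : Finset Λ => ‖u - ∑ w ∈ s, ⟪e w, u⟫_ℂ • e w‖ ^ 2) atTop (𝓝 0) := by
    have h2 : Tendsto (fun s : Finset Λ => u - ∑ w ∈ s, ⟪e w, u⟫_ℂ • e w) atTop (𝓝 (u - u)) :=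
      tendsto_const_nhds.sub (M.hasSum_repr u)
    rw [sub_self] at h2
    have h3 := h2.norm.pow 2
    simpa using h3
  obtain ⟨s, hs⟩ := (h1.eventually_le_const hε).exists
  refine ⟨_, ?_, hs⟩
  clear hs
  induction s using Finset.induction_on with
  | empty => rw [Finset.sum_empty]; exact singV_zero _
  | insert w s hw ih =>
    rw [Finset.sum_insert hw]
    exact SingV.add (M.sa ω) ((h w).smul _) ih

end

variable {F : Type} [Fintype F] [DecidableEq F] [SX.Thin F]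

theorem NumRad.nonneg {μ : ℝ} (hμ : NumRad F μ) (o : F) : 0 ≤ μ := by
  have h := hμ (fun f => if f = o then 1 else 0)
  have h1 : ∑ f : F, ‖(if f = o then (1:ℂ) else 0)‖ ^ 2 = 1 := by
    rw [Finset.sum_eq_single o]
    · simp
    · intro f _ hf
      simp [hf]
    · intro h
      exact absurd (Finset.mem_univ _) h
  rw [h1, mul_one] at h
  exact (abs_nonneg _).trans h

/-- the energies outside the interval -/
theorem noAC_out {d : ℕ} {κ c μ : ℝ} (hc : 0 < c) (hμ : NumRad F μ) (o : F) (w : SX.St d F → ℝ)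
    (ν : Measure ℝ) (hν : IsFiniteMeasure ν) (hs : IsSpec (HS κ c w) (eb (oS d o)) ν) :
    NoAC ν (Icc (κ - μ - c) (4 * d + κ + μ + c))ᶜ := by
  refine ASF.noAC_of_null ?_
  refine ASF.spec_compl hs ?_ (spectrum_HS hc hμ w)
  have h1 : (0 : ℝ) ≤ d := Nat.cast_nonneg d
  have h2 := hμ.nonneg o
  linarith

/-- **Assembly**: local diffusive bounds at all energies of `(κ - μ - c, 8 + κ + μ + c)`. -/
theorem sing_of_local {κ c μ : ℝ} (hc : 0 < c) (hμ : NumRad F μ) (o : F)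
    (h : ∀ Es ∈ Ioo (κ - μ - c) (8 + κ + μ + c), ∃ δ C a₀ : ℝ, 0 < δ ∧ 0 < a₀ ∧
      ∀ E : ℝ, |E - Es| < δ → ∀ a : ℝ, 0 < a → a < a₀ →
        DE 2 κ c o ⟨E, a⟩ ≤ ENNReal.ofReal (C / a ^ 2)) :
    ∀ᵐ w ∂(PP (SX.St 2 F) c), ∀ ν : Measure ℝ, IsFiniteMeasure ν →
      IsSpec (HS κ c w) (eb (oS 2 o)) ν → ν ⟂ₘ volume := by
  choose! δ C a₀ hδ ha₀ hb using h
  obtain ⟨t, ht, htc, hcov⟩ := TopologicalSpace.countable_cover_nhdsWithin
    (s := Ioo (κ - μ - c) (8 + κ + μ + c)) (f := fun Es => Metric.ball Es (δ Es))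
    (fun Es hEs => mem_nhdsWithin_of_mem_nhds (Metric.ball_mem_nhds Es (hδ Es hEs)))
  have h1 : ∀ Es ∈ t, ∀ᵐ w ∂(PP (SX.St 2 F) c), ∀ ν : Measure ℝ, IsFiniteMeasure ν →
      IsSpec (HS κ c w) (eb (oS 2 o)) ν → NoAC ν (Metric.ball Es (δ Es)) := by
    intro Es hEs
    have hEs' := ht hEs
    refine local_sing hc o Metric.isOpen_ball.measurableSet (C := max (C Es) 0)
      (η₁ := min (a₀ Es) 1) (lt_min (ha₀ Es hEs') one_pos) fun E hE η hη hη1 => ?_
    refine (hb Es hEs' E (by rwa [Metric.mem_ball, Real.dist_eq] at hE) η hη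
      (hη1.trans_le (min_le_left _ _))).trans (ENNReal.ofReal_le_ofReal ?_)
    have hlog : 0 ≤ Real.log (1 / η) := by
      apply Real.log_nonneg
      rw [le_div_iff₀ hη, one_mul]
      exact hη1.le.trans (min_le_right _ _)
    apply div_le_div_of_nonneg_right _ (by positivity)
    have h2 : (0 : ℝ) ≤ max (C Es) 0 := le_max_right _ _
    have h3 := le_max_left (C Es) 0
    nlinarith
  have h2 := (ae_ball_iff htc).mpr h1
  filter_upwards [h2] with w hw ν hν hs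
  have h3 : ∀ᵐ x ∂(volume : Measure ℝ), ∀ Es ∈ t, x ∈ Metric.ball Es (δ Es) → Dens ν x = 0 := by
    rw [ae_ball_iff htc]
    intro Es hEs
    exact (ae_restrict_iff' Metric.isOpen_ball.measurableSet).mp (hw Es hEs ν hν hs)
  have h4 : ∀ᵐ x ∂(volume : Measure ℝ),
      x ∈ (Icc (κ - μ - c) (4 * (2 : ℕ) + κ + μ + c))ᶜ → Dens ν x = 0 :=
    (ae_restrict_iff' measurableSet_Icc.compl).mp (noAC_out hc hμ o w ν hν hs)
  have h5 : ∀ᵐ x ∂(volume : Measure ℝ), x ≠ κ - μ - c ∧ x ≠ 8 + κ + μ + c := by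
    exact (Measure.ae_ne volume (κ - μ - c)).and (Measure.ae_ne volume (8 + κ + μ + c))
  rw [← Measure.rnDeriv_eq_zero]
  filter_upwards [h3, h4, h5, Measure.rnDeriv_lt_top ν volume] with x hx hx2 hx3 hx4
  have h6 : Dens ν x = 0 := by
    by_cases hxI : x ∈ Icc (κ - μ - c) (4 * (2 : ℕ) + κ + μ + c)
    · have h7 : x ∈ Ioo (κ - μ - c) (8 + κ + μ + c) := by
        obtain ⟨a1, a2⟩ := hxI
        push_cast at a2
        refine ⟨lt_of_le_of_ne a1 (Ne.symm hx3.1), lt_of_le_of_ne (by linarith) hx3.2⟩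
      obtain ⟨Es, hEs, hxE⟩ := mem_iUnion₂.mp (hcov h7)
      exact hx Es hEs hxE
    · exact hx2 hxI
  unfold Dens at h6
  have h8 := (mul_eq_zero.mp h6).resolve_left Real.pi_ne_zero
  rcases (ENNReal.toReal_eq_zero_iff _).mp h8 with h | h
  · exact h
  · exact absurd h hx4.ne

/-- **Assembly**: local box bounds at all energies of `(κ - μ - c, 8 + κ + μ + c)` imply that almost
surely all spectral measures are singular. -/
theorem singV_of_box {κ c μ : ℝ} (hc : 0 < c) (hμ : NumRad F μ)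
    (h : ∀ Es ∈ Ioo (κ - μ - c) (8 + κ + μ + c), ∃ δ C a₀ : ℝ, 0 < δ ∧ 0 < a₀ ∧
      ∀ E : ℝ, |E - Es| < δ → ∀ a : ℝ, 0 < a → a < a₀ → ∃ n₀ : ℕ, ∀ n ≥ n₀,
        ∫ V, AL.DU (Ab 2 F κ E n) (xb 2 F n) (fun x => ((V x : ℝ) : ℂ) - a * Complex.I)
          ∂(Measure.pi fun _ : (Fin 2 → Fin n) × F => unif c) ≤ C * (n : ℝ) ^ 2) :
    ∀ᵐ w ∂(PP (SX.St 2 F) c), ∀ u, SingV (HS κ c w) u := by
  have := unif_prob hc
  set M := modelS 2 F κ hc with hM
  have hloc : ∀ o : F, ∀ Es ∈ Ioo (κ - μ - c) (8 + κ + μ + c), ∃ δ C a₀ : ℝ, 0 < δ ∧ 0 < a₀ ∧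
      ∀ E : ℝ, |E - Es| < δ → ∀ a : ℝ, 0 < a → a < a₀ →
        DE 2 κ c o ⟨E, a⟩ ≤ ENNReal.ofReal (C / a ^ 2) := by
    intro o Es hEs
    obtain ⟨δ, C, a₀, hδ, ha₀, hb⟩ := h Es hEs
    refine ⟨δ, max C 0, a₀, hδ, ha₀, fun E hE a ha haa => ?_⟩
    obtain ⟨n₀, hn⟩ := hb E hE a ha haa
    refine lim_box hc ha (le_max_right _ _) (n₀ := n₀) (fun n hn' => (hn n hn').trans ?_) o
    exact mul_le_mul_of_nonneg_right (le_max_left _ _) (by positivity)
  have h1 : ∀ o : F, ∀ᵐ w ∂(PP (SX.St 2 F) c), SingV (HS κ c w) (eb (oS 2 o)) := by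
    intro o
    filter_upwards [sing_of_local hc hμ o (hloc o)] with w hw
    obtain ⟨ν, hfin, hν⟩ := exists_isSpec (M.sa w) (eb (oS 2 o))
    exact singV_of_sing (M.sa w) hν (hw ν hfin hν)
  have h2 : ∀ᵐ w ∂(PP (SX.St 2 F) c), ∀ x : SX.St 2 F,
      SingV (HS κ c fun j => w (shE F x.1 j)) (eb (oS 2 x.2)) := by
    rw [ae_all_iff]
    intro x
    have h3 : MeasurePreserving (fun w : SX.St 2 F → ℝ => fun j => w (shE F x.1 j))
        (PP (SX.St 2 F) c) (PP (SX.St 2 F) c) := mp_perm (unif c) (shE F x.1)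
    exact h3.quasiMeasurePreserving.ae (h1 x.2)
  filter_upwards [h2] with w hw u
  refine singV_all' M (fun x => ?_) u
  have h3 := hw x
  unfold SingV at h3 ⊢
  refine h3.congr fun k => lintegral_congr fun s => ?_
  have hz := Zt_im_pos (tk_pos k) s
  have h4 : ∀ (w : SX.St 2 F → ℝ) (x : SX.St 2 F), ENNReal.ofReal (Zt (tk k) s).im
      * ‖Rv (HS κ c w) (Zt (tk k) s) (eb x)‖ₑ ^ 2
      = ENNReal.ofReal (Gr eb (HS κ c) w (Zt (tk k) s) x x).im := by
    intro w x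
    unfold Gr
    rw [im_inner_Rv (M.sa w) hz.ne', ENNReal.ofReal_mul hz.le, ENNReal.ofReal_pow (norm_nonneg _),
      ofReal_norm]
  rw [h4, h4, covS hc x.1 w hz, zero_add]

end Pool.Agent.Lib.MP_562b47_mp.SG
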