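import Mathlib
import Pool.Agent.Lib.MP_562b47_mp.SX.Prof
import Pool.Agent.Lib.MP_562b47_mp.SG.Op

/-!
MP_562b47, slabs: the cross-section `∏ {0, ..., M i - 1}`.
-/

open Finset

namespace Pool.Agent.Lib.MP_562b47_mp.SG

open Pool.Agent.Lib.MP_562b47_mp

/-! ### Numerical radius from a positive mode -/

section schur

variable {F : Type} [Fintype F] [SX.Thin F]

theorem tb_eq {R : Type*} [AddCommMonoid R] (u : F → R) (f : F) :
    SX.tb u f = ∑ g, if SX.Thin.B f g then u g else 0 := rfl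

theorem numRad_of_mode {φ : F → ℝ} {μ : ℝ} (hφ : SX.Mode F φ μ) (hp : ∀ f, 0 < φ f) :
    NumRad F μ := by
  intro w
  have h1 : |(∑ f, (starRingEnd ℂ) (w f) * SX.tb w f).re|
      ≤ ∑ f, ∑ g, if SX.Thin.B f g then ‖w f‖ * ‖w g‖ else 0 := by
    refine (Complex.abs_re_le_norm _).trans ((norm_sum_le _ _).trans ?_)
    refine sum_le_sum fun f _ => ?_
    rw [norm_mul, RCLike.norm_conj, tb_eq]
    calc ‖w f‖ * ‖∑ g, if SX.Thin.B f g then w g else 0‖
        ≤ ‖w f‖ * ∑ g, ‖if SX.Thin.B f g then w g else 0‖ := by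
          gcongr
          exact norm_sum_le _ _
      _ = ∑ g, if SX.Thin.B f g then ‖w f‖ * ‖w g‖ else 0 := by
          rw [mul_sum]
          refine sum_congr rfl fun g _ => ?_
          split_ifs <;> simp
  refine h1.trans ?_
  have h2 : ∀ f g : F, (if SX.Thin.B f g then ‖w f‖ * ‖w g‖ else 0)
      ≤ (1 / 2) * (if SX.Thin.B f g then ‖w f‖ ^ 2 * (φ g / φ f) else 0)
        + (1 / 2) * (if SX.Thin.B g f then ‖w g‖ ^ 2 * (φ f / φ g) else 0) := by
    intro f g
    by_cases h : SX.Thin.B f g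
    · rw [if_pos h, if_pos h, if_pos (SX.Thin.symm h)]
      have hf := hp f
      have hg := hp g
      have h3 : 0 ≤ (‖w f‖ * φ g - ‖w g‖ * φ f) ^ 2 / (2 * (φ f * φ g)) := by positivity
      have h4 : (‖w f‖ * φ g - ‖w g‖ * φ f) ^ 2 / (2 * (φ f * φ g))
          = 1 / 2 * (‖w f‖ ^ 2 * (φ g / φ f)) + 1 / 2 * (‖w g‖ ^ 2 * (φ f / φ g))
            - ‖w f‖ * ‖w g‖ := by
        field_simp
        ring
      linarith
    · rw [if_neg h, if_neg h, if_neg (fun h' => h (SX.Thin.symm h'))]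
      simp
  have h3 : ∀ f : F, ∑ g, (if SX.Thin.B f g then ‖w f‖ ^ 2 * (φ g / φ f) else 0)
      = μ * ‖w f‖ ^ 2 := by
    intro f
    have h4 : ∑ g, (if SX.Thin.B f g then ‖w f‖ ^ 2 * (φ g / φ f) else 0)
        = ‖w f‖ ^ 2 / φ f * SX.tb φ f := by
      rw [tb_eq, mul_sum]
      refine sum_congr rfl fun g _ => ?_
      split_ifs
      · ring
      · ring
    rw [h4, hφ.eq]
    have := (hp f).ne'
    field_simp
  calc ∑ f, ∑ g, (if SX.Thin.B f g then ‖w f‖ * ‖w g‖ else 0)
      ≤ ∑ f, ∑ g, ((1 / 2) * (if SX.Thin.B f g then ‖w f‖ ^ 2 * (φ g / φ f) else 0)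
        + (1 / 2) * (if SX.Thin.B g f then ‖w g‖ ^ 2 * (φ f / φ g) else 0)) :=
        sum_le_sum fun f _ => sum_le_sum fun g _ => h2 f g
    _ = (1 / 2) * ∑ f, ∑ g, (if SX.Thin.B f g then ‖w f‖ ^ 2 * (φ g / φ f) else 0)
        + (1 / 2) * ∑ g, ∑ f, (if SX.Thin.B g f then ‖w g‖ ^ 2 * (φ f / φ g) else 0) := by
        simp only [sum_add_distrib, ← mul_sum]
        congr 2
        exact sum_comm
    _ = μ * ∑ f, ‖w f‖ ^ 2 := by
        simp only [h3, ← mul_sum]
        ring

end schur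

/-! ### One direction -/

/-- neighbours in `{0, ..., m - 1}` -/
def Na {m : ℕ} (a b : Fin m) : Prop := (a : ℕ) + 1 = b ∨ (b : ℕ) + 1 = a

instance {m : ℕ} : DecidableRel (Na (m := m)) := fun a b => by unfold Na; infer_instance

theorem Na.symm {m : ℕ} {a b : Fin m} (h : Na a b) : Na b a := h.elim Or.inr Or.inl

theorem Na.irr {m : ℕ} (a : Fin m) : ¬ Na a a := by
  rintro (h | h) <;> omega

/-- `s ^ n sin (π (n + 1) / (m + 1))` -/
noncomputable def ps (s : ℝ) (m n : ℕ) : ℝ :=
  s ^ n * Real.sin (Real.pi * ((n : ℝ) + 1) / ((m : ℝ) + 1))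

/-- `2 cos (π / (m + 1))` -/
noncomputable def tt (m : ℕ) : ℝ := 2 * Real.cos (Real.pi / ((m : ℝ) + 1))

theorem ang_mem {m : ℕ} (n : ℕ) (hn : n < m) :
    0 < Real.pi * ((n : ℝ) + 1) / ((m : ℝ) + 1) ∧
      Real.pi * ((n : ℝ) + 1) / ((m : ℝ) + 1) < Real.pi := by
  have h1 : (n : ℝ) + 1 < (m : ℝ) + 1 := by exact_mod_cast Nat.succ_lt_succ hn
  have h2 : (0 : ℝ) < (m : ℝ) + 1 := by positivity
  have h3 := Real.pi_pos
  refine ⟨by positivity, ?_⟩
  rw [div_lt_iff₀ h2]
  exact mul_lt_mul_of_pos_left h1 h3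

theorem ps_pos {m n : ℕ} (hn : n < m) : 0 < ps 1 m n := by
  unfold ps
  rw [one_pow, one_mul]
  obtain ⟨h1, h2⟩ := ang_mem n hn
  exact Real.sin_pos_of_pos_of_lt_pi h1 h2

theorem ps_ne {s : ℝ} (hs : s = 1 ∨ s = -1) {m n : ℕ} (hn : n < m) : ps s m n ≠ 0 := by
  have h1 := ps_pos hn
  unfold ps at h1 ⊢
  rw [one_pow, one_mul] at h1
  refine mul_ne_zero (pow_ne_zero _ ?_) h1.ne'
  rcases hs with rfl | rfl <;> norm_num

theorem tt_nonneg {m : ℕ} (hm : 1 ≤ m) : 0 ≤ tt m := by
  unfold tt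
  have h1 : (2 : ℝ) ≤ (m : ℝ) + 1 := by
    have : (1 : ℝ) ≤ m := by exact_mod_cast hm
    linarith
  have h2 := Real.pi_pos
  have h3 : Real.pi / ((m : ℝ) + 1) ≤ Real.pi / 2 := by gcongr
  have h4 : 0 ≤ Real.pi / ((m : ℝ) + 1) := by positivity
  have h5 := Real.cos_nonneg_of_neg_pi_div_two_le_of_le (by linarith) h3
  linarith

theorem tt_lt (m : ℕ) : tt m < 2 := by
  unfold tt
  have h1 := Real.pi_pos
  have h2 : 0 < Real.pi / ((m : ℝ) + 1) := by positivity
  have h3 : Real.pi / ((m : ℝ) + 1) ≤ Real.pi := by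
    apply div_le_self h1.le
    have : (0 : ℝ) ≤ m := Nat.cast_nonneg m
    linarith
  have h4 := Real.cos_lt_cos_of_nonneg_of_le_pi le_rfl h3 h2
  rw [Real.cos_zero] at h4
  linarith

/-- the eigenvalue equation in one direction -/
theorem ps_eq {s : ℝ} (hs : s = 1 ∨ s = -1) {m : ℕ} (a : Fin m) :
    ∑ b : Fin m, (if Na a b then ps s m b else 0) = s * tt m * ps s m a := by
  have hss : s * s = 1 := by rcases hs with rfl | rfl <;> norm_num
  have hm0 : (0 : ℝ) < (m : ℝ) + 1 := by positivity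
  have h1 : ∀ b : Fin m, (if Na a b then ps s m b else 0)
      = (if (a : ℕ) + 1 = b then ps s m b else 0) + (if (b : ℕ) + 1 = a then ps s m b else 0) := by
    intro b
    by_cases h : (a : ℕ) + 1 = b
    · have h' : ¬ (b : ℕ) + 1 = a := by omega
      have h2 : Na a b := Or.inl h
      rw [if_pos h2, if_pos h, if_neg h', add_zero]
    · by_cases h' : (b : ℕ) + 1 = a
      · have h2 : Na a b := Or.inr h'
        rw [if_pos h2, if_neg h, if_pos h', zero_add]
      · have h2 : ¬ Na a b := fun h2 => h2.elim h h'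
        rw [if_neg h2, if_neg h, if_neg h', add_zero]
  -- the upper neighbour
  have h2 : ∑ b : Fin m, (if (a : ℕ) + 1 = b then ps s m b else 0)
      = s ^ ((a : ℕ) + 1) * Real.sin (Real.pi * ((a : ℝ) + 2) / ((m : ℝ) + 1)) := by
    by_cases h : (a : ℕ) + 1 < m
    · rw [Finset.sum_eq_single (⟨(a : ℕ) + 1, h⟩ : Fin m)]
      · rw [if_pos rfl]
        unfold ps
        congr 2
        push_cast
        ring
      · intro b _ hb
        rw [if_neg]
        intro h3
        exact hb (Fin.ext h3.symm)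
      · intro h3
        exact absurd (Finset.mem_univ _) h3
    · have h3 : (a : ℕ) + 1 = m := by have := a.2; omega
      have h4 : Real.pi * ((a : ℝ) + 2) / ((m : ℝ) + 1) = Real.pi := by
        have h5 : (m : ℝ) = (a : ℝ) + 1 := by exact_mod_cast h3.symm
        rw [h5] at hm0 ⊢
        field_simp
        ring
      rw [h4, Real.sin_pi, mul_zero]
      refine Finset.sum_eq_zero fun b _ => ?_
      rw [if_neg]
      have := b.2
      omega
  -- the lower neighbour
  have h3 : ∑ b : Fin m, (if (b : ℕ) + 1 = a then ps s m b else 0)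
      = s ^ ((a : ℕ) + 1) * Real.sin (Real.pi * (a : ℝ) / ((m : ℝ) + 1)) := by
    by_cases h : 1 ≤ (a : ℕ)
    · have hlt : (a : ℕ) - 1 < m := by have := a.2; omega
      rw [Finset.sum_eq_single (⟨(a : ℕ) - 1, hlt⟩ : Fin m)]
      · have h4 : ((⟨(a : ℕ) - 1, hlt⟩ : Fin m) : ℕ) + 1 = a := by
          simp only
          omega
        rw [if_pos h4]
        obtain ⟨n, hn⟩ : ∃ n, (a : ℕ) = n + 1 := ⟨(a : ℕ) - 1, by omega⟩
        simp only
        unfold ps
        rw [hn]
        have h5 : s ^ (n + 1 + 1) = s ^ n := by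
          rw [pow_succ, pow_succ, mul_assoc, hss, mul_one]
        rw [h5]
        simp only [Nat.add_sub_cancel]
        push_cast
        rfl
      · intro b _ hb
        rw [if_neg]
        intro h3
        apply hb
        apply Fin.ext
        simp only
        omega
      · intro h3
        exact absurd (Finset.mem_univ _) h3
    · have h4 : (a : ℕ) = 0 := by omega
      have h5 : Real.pi * ((a : ℕ) : ℝ) / ((m : ℝ) + 1) = 0 := by
        rw [h4]; simp
      rw [h5, Real.sin_zero, mul_zero]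
      refine Finset.sum_eq_zero fun b _ => ?_
      rw [if_neg]
      omega
  rw [Finset.sum_congr rfl fun b _ => h1 b, Finset.sum_add_distrib, h2, h3]
  unfold ps tt
  set θ : ℝ := Real.pi / ((m : ℝ) + 1) with hθ
  have e1 : Real.pi * ((a : ℝ) + 2) / ((m : ℝ) + 1) = Real.pi * ((a : ℝ) + 1) / ((m : ℝ) + 1) + θ := by
    rw [hθ]; ring
  have e2 : Real.pi * (a : ℝ) / ((m : ℝ) + 1) = Real.pi * ((a : ℝ) + 1) / ((m : ℝ) + 1) - θ := by
    rw [hθ]; ring
  rw [e1, e2, Real.sin_add, Real.sin_sub, pow_succ]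
  ring

/-! ### The product -/

variable {k : ℕ}

/-- the cross-section -/
abbrev Fb (M : Fin k → ℕ) : Type := (i : Fin k) → Fin (M i)

/-- neighbours in the cross-section -/
def Nb {M : Fin k → ℕ} (f g : Fb M) : Prop := ∃ i, Na (f i) (g i) ∧ ∀ j, j ≠ i → f j = g j

instance {M : Fin k → ℕ} : DecidableRel (Nb (M := M)) := fun f g => by
  unfold Nb; infer_instance

theorem Nb.symm {M : Fin k → ℕ} {f g : Fb M} (h : Nb f g) : Nb g f := by
  obtain ⟨i, h1, h2⟩ := h
  exact ⟨i, h1.symm, fun j hj => (h2 j hj).symm⟩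

theorem Nb.irr {M : Fin k → ℕ} (f : Fb M) : ¬ Nb f f := by
  rintro ⟨i, h, -⟩
  exact Na.irr _ h

/-- distance -/
def dF {M : Fin k → ℕ} (f g : Fb M) : ℕ := ∑ i, (((f i : ℕ) : ℤ) - ((g i : ℕ) : ℤ)).natAbs

theorem exists_step {M : Fin k → ℕ} (f g : Fb M) (h : f ≠ g) :
    ∃ f', Nb f f' ∧ dF f' g < dF f g := by
  obtain ⟨i, hi⟩ := Function.ne_iff.mp h
  have hne : (f i : ℕ) ≠ g i := fun h' => hi (Fin.ext h')
  -- the new coordinate
  obtain ⟨a, ha1, ha2⟩ : ∃ a : Fin (M i), Na (f i) a ∧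
      (((a : ℕ) : ℤ) - ((g i : ℕ) : ℤ)).natAbs < (((f i : ℕ) : ℤ) - ((g i : ℕ) : ℤ)).natAbs := by
    rcases lt_or_gt_of_ne hne with h1 | h1
    · refine ⟨⟨(f i : ℕ) + 1, lt_of_le_of_lt h1 (g i).2⟩, Or.inl rfl, ?_⟩
      simp only
      omega
    · have h2 : (f i : ℕ) - 1 < M i := by have := (f i).2; omega
      refine ⟨⟨(f i : ℕ) - 1, h2⟩, Or.inr ?_, ?_⟩
      · simp only
        omega
      · simp only
        omega
  refine ⟨Function.update f i a, ⟨i, ?_, fun j hj => ?_⟩, ?_⟩
  · rwa [Function.update_self]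
  · rw [Function.update_of_ne hj]
  · unfold dF
    refine Finset.sum_lt_sum (fun j _ => ?_) ⟨i, Finset.mem_univ _, ?_⟩
    · by_cases hj : j = i
      · subst hj
        rw [Function.update_self]
        exact ha2.le
      · rw [Function.update_of_ne hj]
    · rwa [Function.update_self]

theorem Nb.conn {M : Fin k → ℕ} (S : Set (Fb M)) (hS : S.Nonempty)
    (h : ∀ f ∈ S, ∀ g, Nb f g → g ∈ S) (f : Fb M) : f ∈ S := by
  obtain ⟨f0, hf0⟩ := hS
  have key : ∀ n : ℕ, ∀ f1 ∈ S, dF f1 f = n → f ∈ S := by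
    intro n
    induction n using Nat.strong_induction_on with
    | _ n ih =>
      intro f1 hf1 hn
      by_cases h1 : f1 = f
      · rwa [← h1]
      · obtain ⟨f2, h2, h3⟩ := exists_step f1 f h1
        exact ih _ (hn ▸ h3) f2 (h f1 hf1 f2 h2) rfl
  exact key _ f0 hf0 rfl

instance instThinFb (M : Fin k → ℕ) : SX.Thin (Fb M) where
  B := Nb
  dec := inferInstance
  symm := Nb.symm
  irr := Nb.irr
  conn := Nb.conn

/-- the sum over the neighbours, direction by direction -/
theorem tb_Fb {R : Type*} [AddCommMonoid R] {M : Fin k → ℕ} (u : Fb M → R) (f : Fb M) :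
    SX.tb u f = ∑ i, ∑ a : Fin (M i), if Na (f i) a then u (Function.update f i a) else 0 := by
  have h1 : ∀ g : Fb M, (if SX.Thin.B f g then u g else 0)
      = ∑ i, if Na (f i) (g i) ∧ ∀ j, j ≠ i → f j = g j then u g else 0 := by
    intro g
    by_cases h : Nb f g
    · have h' : SX.Thin.B f g := h
      rw [if_pos h']
      obtain ⟨i, h2, h3⟩ := h
      rw [Finset.sum_eq_single i]
      · rw [if_pos ⟨h2, h3⟩]
      · intro j _ hj
        rw [if_neg]
        rintro ⟨h4, -⟩
        rw [h3 j hj] at h4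
        exact Na.irr _ h4
      · intro h4
        exact absurd (Finset.mem_univ _) h4
    · have h' : ¬ SX.Thin.B f g := h
      rw [if_neg h']
      symm
      refine Finset.sum_eq_zero fun i _ => ?_
      rw [if_neg]
      intro h2
      exact h ⟨i, h2⟩
  rw [tb_eq, Finset.sum_congr rfl fun g _ => h1 g, Finset.sum_comm]
  refine Finset.sum_congr rfl fun i _ => ?_
  classical
  have hinj : Function.Injective fun a : Fin (M i) => Function.update f i a :=
    Function.update_injective f i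
  have h2 : ∑ a : Fin (M i), (if Na (f i) a then u (Function.update f i a) else 0)
      = ∑ g ∈ Finset.univ.map ⟨_, hinj⟩,
        (if Na (f i) (g i) ∧ ∀ j, j ≠ i → f j = g j then u g else 0) := by
    rw [Finset.sum_map]
    refine Finset.sum_congr rfl fun a _ => ?_
    simp only [Function.Embedding.coeFn_mk, Function.update_self]
    by_cases h3 : Na (f i) a
    · rw [if_pos h3, if_pos]
      exact ⟨h3, fun j hj => by rw [Function.update_of_ne hj]⟩
    · rw [if_neg h3, if_neg fun h4 => h3 h4.1]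
  rw [h2]
  symm
  refine Finset.sum_subset (Finset.subset_univ _) fun g _ hg => ?_
  rw [if_neg]
  rintro ⟨h3, h4⟩
  apply hg
  rw [Finset.mem_map]
  refine ⟨g i, Finset.mem_univ _, ?_⟩
  simp only [Function.Embedding.coeFn_mk]
  funext j
  by_cases hj : j = i
  · subst hj
    rw [Function.update_self]
  · rw [Function.update_of_ne hj, h4 j hj]

/-- the product modes -/
noncomputable def pm (M : Fin k → ℕ) (s : Fin k → ℝ) (f : Fb M) : ℝ := ∏ i, ps (s i) (M i) (f i)

/-- the eigenvalue -/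
noncomputable def lam (M : Fin k → ℕ) (s : Fin k → ℝ) : ℝ := ∑ i, s i * tt (M i)

theorem mode_pm (M : Fin k → ℕ) {s : Fin k → ℝ} (hs : ∀ i, s i = 1 ∨ s i = -1) :
    SX.Mode (Fb M) (pm M s) (lam M s) where
  ne := fun f => Finset.prod_ne_zero_iff.mpr fun i _ => ps_ne (hs i) (f i).2
  eq := fun f => by
    rw [tb_Fb]
    unfold lam
    rw [Finset.sum_mul]
    refine Finset.sum_congr rfl fun i _ => ?_
    have h1 : ∀ a : Fin (M i), pm M s (Function.update f i a)
        = ps (s i) (M i) a * ∏ j ∈ Finset.univ.erase i, ps (s j) (M j) (f j) := by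
      intro a
      unfold pm
      rw [← Finset.mul_prod_erase Finset.univ _ (Finset.mem_univ i), Function.update_self]
      congr 1
      refine Finset.prod_congr rfl fun j hj => ?_
      rw [Function.update_of_ne (Finset.ne_of_mem_erase hj)]
    have h2 : pm M s f
        = ps (s i) (M i) (f i) * ∏ j ∈ Finset.univ.erase i, ps (s j) (M j) (f j) := by
      unfold pm
      rw [← Finset.mul_prod_erase Finset.univ _ (Finset.mem_univ i)]
    have h3 : ∑ a : Fin (M i), (if Na (f i) a then pm M s (Function.update f i a) else 0)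
        = (∑ a : Fin (M i), if Na (f i) a then ps (s i) (M i) a else 0)
          * ∏ j ∈ Finset.univ.erase i, ps (s j) (M j) (f j) := by
      rw [Finset.sum_mul]
      refine Finset.sum_congr rfl fun a _ => ?_
      rw [h1]
      split_ifs <;> simp
    rw [h3, ps_eq (hs i), h2]
    ring

/-- the largest eigenvalue -/
noncomputable def lam1 (M : Fin k → ℕ) : ℝ := ∑ i, tt (M i)

theorem numRad_Fb (M : Fin k → ℕ) : NumRad (Fb M) (lam1 M) := by
  have h1 := mode_pm M (s := fun _ => 1) (fun _ => Or.inl rfl)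
  have h2 : lam M (fun _ => 1) = lam1 M := by
    unfold lam lam1
    simp
  rw [h2] at h1
  exact numRad_of_mode h1 fun f => Finset.prod_pos fun i _ => ps_pos (f i).2

/-- the eigenvalues `∑ ± t i` leave no gaps -/
theorem cover_aux {ι : Type*} [DecidableEq ι] (t : ι → ℝ) (ht : ∀ i, 0 ≤ t i) (ht2 : ∀ i, t i < 2)
    {D : ℝ} (hD : 2 ≤ D) (S : Finset ι) :
    ∀ v : ℝ, |v| < D + ∑ i ∈ S, t i → ∃ s : ι → ℝ, (∀ i, s i = 1 ∨ s i = -1) ∧
      |v - ∑ i ∈ S, s i * t i| < D := by
  induction S using Finset.induction_on with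
  | empty =>
    intro v hv
    refine ⟨fun _ => 1, fun _ => Or.inl rfl, ?_⟩
    simpa using hv
  | insert i S hi ih =>
    intro v hv
    rw [Finset.sum_insert hi] at hv
    have h1 := ht i
    have h2 := ht2 i
    have h3 : 0 ≤ ∑ i ∈ S, t i := Finset.sum_nonneg fun i _ => ht i
    rw [abs_lt] at hv
    have key : ∀ σ : ℝ, (σ = 1 ∨ σ = -1) → |v - σ * t i| < D + ∑ i ∈ S, t i →
        ∃ s : ι → ℝ, (∀ i, s i = 1 ∨ s i = -1) ∧ |v - ∑ i ∈ insert i S, s i * t i| < D := by
      intro σ hσ hv2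
      obtain ⟨s, hs, hs2⟩ := ih _ hv2
      refine ⟨Function.update s i σ, fun j => ?_, ?_⟩
      · by_cases hj : j = i
        · subst hj
          rw [Function.update_self]
          exact hσ
        · rw [Function.update_of_ne hj]
          exact hs j
      · rw [Finset.sum_insert hi, Function.update_self]
        have h4 : ∑ j ∈ S, Function.update s i σ j * t j = ∑ j ∈ S, s j * t j := by
          refine Finset.sum_congr rfl fun j hj => ?_
          rw [Function.update_of_ne]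
          rintro rfl
          exact hi hj
        rw [h4]
        rwa [← sub_sub]
    rcases le_total 0 v with h | h
    · refine key 1 (Or.inl rfl) ?_
      rw [abs_lt]
      constructor <;> linarith [hv.1, hv.2]
    · refine key (-1) (Or.inr rfl) ?_
      rw [abs_lt]
      constructor <;> linarith [hv.1, hv.2]

/-- every energy is within `2 d` of an eigenvalue of a mode -/
theorem cover_Fb {M : Fin k → ℕ} (hM : ∀ i, 1 ≤ M i) {d : ℕ} (hd : 1 ≤ d) (v : ℝ)
    (hv : |v| < 2 * d + lam1 M) :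
    ∃ (φ : Fb M → ℝ) (l : ℝ), SX.Mode (Fb M) φ l ∧ |v - l| < 2 * d := by
  have hd1 : (1 : ℝ) ≤ d := by exact_mod_cast hd
  obtain ⟨s, hs, hs2⟩ := cover_aux (fun i => tt (M i)) (fun i => tt_nonneg (hM i))
    (fun i => tt_lt (M i)) (D := 2 * d) (by linarith) Finset.univ v hv
  exact ⟨pm M s, lam M s, mode_pm M hs, hs2⟩

end Pool.Agent.Lib.MP_562b47_mp.SG
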