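import Mathlib
import Pool.Agent.Lib.MP_562b47_mp.SG.Asm
import Pool.Agent.Lib.MP_562b47_mp.SG.Fib

/-!
MP_562b47: the slab `{j ∈ ℤ^(2+k) : 1 ≤ j_(2+i) ≤ M i}` and its Anderson operator with Dirichlet
condition.
-/

open MeasureTheory Set Filter Topology Complex
open scoped Real ENNReal NNReal InnerProductSpace

namespace Pool.Agent.Lib.MP_562b47_mp.SG

open Pool.Agent.Lib.MP_562b47_mp

/-! ### Transport along a bijection of the sites -/

section transport

variable {Λ Λ' : Type*}

theorem mp_equiv {X : Type*} [MeasurableSpace X] (μ : Measure X) [IsProbabilityMeasure μ]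
    (σ : Λ' ≃ Λ) :
    MeasurePreserving (fun ω : Λ → X => fun j : Λ' => ω (σ j))
      (Measure.infinitePi (fun _ : Λ => μ)) (Measure.infinitePi (fun _ : Λ' => μ)) := by
  refine ⟨by fun_prop, ?_⟩
  refine Measure.eq_infinitePi _ fun s t ht => ?_
  have hms : MeasurableSet (Set.pi (s : Set Λ') t) :=
    MeasurableSet.pi s.countable_toSet fun i _ => ht i
  rw [Measure.map_apply (by fun_prop) hms]
  have e1 : (fun ω : Λ → X => fun j : Λ' => ω (σ j)) ⁻¹' (Set.pi (s : Set Λ') t)
      = Set.pi ((s.map σ.toEmbedding : Finset Λ) : Set Λ) (fun i => t (σ.symm i)) := by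
    ext ω
    simp only [mem_preimage, Set.mem_pi, Finset.mem_coe, Finset.mem_map,
      Equiv.coe_toEmbedding]
    constructor
    · rintro h i ⟨j, hj, rfl⟩
      have := h j hj
      simpa using this
    · intro h i hi
      have := h (σ i) ⟨i, hi, rfl⟩
      simpa using this
  rw [e1, Measure.infinitePi_pi _ (fun i _ => ht _), Finset.prod_map]
  simp

/-- composition with a bijection -/
noncomputable def compL (σ : Λ ≃ Λ') : L2 Λ' →L[ℂ] L2 Λ :=
  LinearMap.mkContinuous
    { toFun := fun u => ⟨fun j => u (σ j), memL2_of_summable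
        ((σ.summable_iff (f := fun j => ‖u j‖ ^ 2)).mpr (L2_summable u))⟩
      map_add' := fun u v => rfl
      map_smul' := fun c u => rfl } 1 (fun u => by
        rw [one_mul]
        refine (sq_le_sq₀ (norm_nonneg _) (norm_nonneg _)).mp ?_
        rw [L2_norm_sq, L2_norm_sq]
        exact le_of_eq (σ.tsum_eq (fun j => ‖u j‖ ^ 2)))

@[simp] theorem compL_apply (σ : Λ ≃ Λ') (u : L2 Λ') (j : Λ) : compL σ u j = u (σ j) := rfl

theorem norm_compL (σ : Λ ≃ Λ') (u : L2 Λ') : ‖compL σ u‖ = ‖u‖ := by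
  rw [← sq_eq_sq₀ (norm_nonneg _) (norm_nonneg _), L2_norm_sq, L2_norm_sq]
  exact σ.tsum_eq (fun j => ‖u j‖ ^ 2)

theorem inner_compL (σ : Λ ≃ Λ') (u : L2 Λ') (v : L2 Λ) :
    ⟪compL σ u, v⟫_ℂ = ⟪u, compL σ.symm v⟫_ℂ := by
  rw [lp.inner_eq_tsum, lp.inner_eq_tsum, ← σ.tsum_eq (fun i => ⟪u i, compL σ.symm v i⟫_ℂ)]
  refine tsum_congr fun i => ?_
  rw [compL_apply, compL_apply, Equiv.symm_apply_apply]

theorem compL_symm_compL (σ : Λ ≃ Λ') (u : L2 Λ') : compL σ.symm (compL σ u) = u := by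
  ext j
  rw [compL_apply, compL_apply, Equiv.apply_symm_apply]

theorem compL_compL_symm (σ : Λ ≃ Λ') (u : L2 Λ) : compL σ (compL σ.symm u) = u := by
  ext j
  rw [compL_apply, compL_apply, Equiv.symm_apply_apply]

/-- the transported operator -/
noncomputable def trL (σ : Λ ≃ Λ') (H : L2 Λ' →L[ℂ] L2 Λ') : L2 Λ →L[ℂ] L2 Λ :=
  compL σ ∘L H ∘L compL σ.symm

theorem trL_apply (σ : Λ ≃ Λ') (H : L2 Λ' →L[ℂ] L2 Λ') (u : L2 Λ) :
    trL σ H u = compL σ (H (compL σ.symm u)) := rfl

theorem isSelfAdjoint_trL (σ : Λ ≃ Λ') {H : L2 Λ' →L[ℂ] L2 Λ'} (hH : IsSelfAdjoint H) :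
    IsSelfAdjoint (trL σ H) := by
  refine isSelfAdjoint_of_symm fun u v => ?_
  have hs : ∀ u v, ⟪H u, v⟫_ℂ = ⟪u, H v⟫_ℂ :=
    ContinuousLinearMap.isSelfAdjoint_iff_isSymmetric.mp hH
  rw [trL_apply, trL_apply, inner_compL, hs]
  have h1 := inner_compL σ.symm u (H (compL σ.symm v))
  rw [Equiv.symm_symm] at h1
  exact h1

theorem norm_Rv_trL (σ : Λ ≃ Λ') {H : L2 Λ' →L[ℂ] L2 Λ'} (hH : IsSelfAdjoint H) {z : ℂ}
    (hz : z.im ≠ 0) (u : L2 Λ) : ‖Rv (trL σ H) z u‖ = ‖Rv H z (compL σ.symm u)‖ := by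
  have hH' := isSelfAdjoint_trL σ hH
  have h1 : compL σ.symm u = H (compL σ.symm (Rv (trL σ H) z u))
      - z • compL σ.symm (Rv (trL σ H) z u) := by
    have h2 : u = trL σ H (Rv (trL σ H) z u) - z • Rv (trL σ H) z u := by
      rw [H_Rv_apply hH' hz]
      abel
    have h3 := congrArg (compL σ.symm) h2
    rw [map_sub, map_smul, trL_apply, compL_symm_compL] at h3
    exact h3
  rw [h1, map_sub, map_smul, Rv_H_apply hH hz, add_sub_cancel_right, norm_compL]

theorem singV_trL (σ : Λ ≃ Λ') {H : L2 Λ' →L[ℂ] L2 Λ'} (hH : IsSelfAdjoint H)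
    (h : ∀ u, SingV H u) (u : L2 Λ) : SingV (trL σ H) u := by
  have h1 := h (compL σ.symm u)
  unfold SingV at h1 ⊢
  refine h1.congr fun k => lintegral_congr fun s => ?_
  rw [← ofReal_norm, ← ofReal_norm, norm_Rv_trL σ hH (Zt_im_pos (tk_pos k) s).ne']

end transport

/-! ### The slab -/

section slab

variable {k : ℕ}

/-- `1 ≤ j_(2+i) ≤ M i` -/
def InS (M : Fin k → ℕ) (j : Fin (2 + k) → ℤ) : Prop :=
  ∀ i : Fin k, 1 ≤ j (Fin.natAdd 2 i) ∧ j (Fin.natAdd 2 i) ≤ M i

/-- the position of a site -/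
def pos (M : Fin k → ℕ) (x : SX.St 2 (Fb M)) : Fin (2 + k) → ℤ :=
  Fin.append x.1 fun i => ((x.2 i : ℕ) : ℤ) + 1

theorem pos_left (M : Fin k → ℕ) (x : SX.St 2 (Fb M)) (a : Fin 2) :
    pos M x (Fin.castAdd k a) = x.1 a := by
  unfold pos
  rw [Fin.append_left]

theorem pos_right (M : Fin k → ℕ) (x : SX.St 2 (Fb M)) (i : Fin k) :
    pos M x (Fin.natAdd 2 i) = ((x.2 i : ℕ) : ℤ) + 1 := by
  unfold pos
  rw [Fin.append_right]

theorem inS_pos (M : Fin k → ℕ) (x : SX.St 2 (Fb M)) : InS M (pos M x) := by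
  intro i
  rw [pos_right]
  have := (x.2 i).2
  omega

/-- the bijection of the sites -/
def sE (M : Fin k → ℕ) : {j : Fin (2 + k) → ℤ // InS M j} ≃ SX.St 2 (Fb M) where
  toFun := fun j => (fun a => j.1 (Fin.castAdd k a), fun i =>
    ⟨(j.1 (Fin.natAdd 2 i) - 1).toNat, by have := j.2 i; omega⟩)
  invFun := fun x => ⟨pos M x, inS_pos M x⟩
  left_inv := fun j => by
    apply Subtype.ext
    funext b
    simp only
    refine Fin.addCases (fun a => ?_) (fun i => ?_) b
    · rw [pos_left]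
    · rw [pos_right]
      have := j.2 i
      simp only
      omega
  right_inv := fun x => by
    refine Prod.ext ?_ ?_
    · funext a
      simp only
      rw [pos_left]
    · funext i
      apply Fin.ext
      simp only
      rw [pos_right]
      omega

theorem sE_symm_val (M : Fin k → ℕ) (x : SX.St 2 (Fb M)) : ((sE M).symm x).1 = pos M x := rfl

open Classical in
/-- extension by zero -/
noncomputable def ez {M : Fin k → ℕ} (u : {j : Fin (2 + k) → ℤ // InS M j} → ℂ)
    (j : Fin (2 + k) → ℤ) : ℂ := if h : InS M j then u ⟨j, h⟩ else 0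

theorem ez_pos {M : Fin k → ℕ} (u : {j : Fin (2 + k) → ℤ // InS M j} → ℂ) (x : SX.St 2 (Fb M))
    {j : Fin (2 + k) → ℤ} (h : j = pos M x) : ez u j = u ((sE M).symm x) := by
  subst h
  unfold ez
  rw [dif_pos (inS_pos M x)]
  rfl

theorem ez_neg {M : Fin k → ℕ} (u : {j : Fin (2 + k) → ℤ // InS M j} → ℂ)
    {j : Fin (2 + k) → ℤ} (h : ¬ InS M j) : ez u j = 0 := by
  unfold ez
  rw [dif_neg h]

/-- the long directions -/
theorem ez_long {M : Fin k → ℕ} (u : {j : Fin (2 + k) → ℤ // InS M j} → ℂ) (x : SX.St 2 (Fb M))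
    (a : Fin 2) (t : ℤ) : ez u (pos M x + Pi.single (Fin.castAdd k a) t)
      = u ((sE M).symm (GD.sh x.1 a t, x.2)) := by
  refine ez_pos u _ ?_
  funext b
  refine Fin.addCases (fun a' => ?_) (fun i => ?_) b
  · rw [Pi.add_apply, pos_left, pos_left]
    change _ = GD.sh x.1 a t a'
    rw [GX.sh_eq_add, Pi.add_apply]
    congr 1
    by_cases h : a' = a
    · subst h
      rw [Pi.single_eq_same, Pi.single_eq_same]
    · rw [Pi.single_eq_of_ne h, Pi.single_eq_of_ne fun h' => h (Fin.castAdd_injective 2 k h')]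
  · rw [Pi.add_apply, pos_right, pos_right, Pi.single_eq_of_ne, add_zero]
    intro h
    have := congrArg Fin.val h
    simp only [Fin.val_natAdd, Fin.val_castAdd] at this
    omega

theorem pos_add_right {M : Fin k → ℕ} (x : SX.St 2 (Fb M)) (i : Fin k) (t : ℤ) :
    (pos M x + Pi.single (Fin.natAdd 2 i) t : Fin (2 + k) → ℤ) (Fin.natAdd 2 i)
      = ((x.2 i : ℕ) : ℤ) + 1 + t := by
  rw [Pi.add_apply, pos_right, Pi.single_eq_same]

theorem pos_update {M : Fin k → ℕ} (x : SX.St 2 (Fb M)) (i : Fin k) (t : ℤ) (a : Fin (M i))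
    (h : ((a : ℕ) : ℤ) = ((x.2 i : ℕ) : ℤ) + t) :
    pos M x + Pi.single (Fin.natAdd 2 i) t = pos M (x.1, Function.update x.2 i a) := by
  funext b
  refine Fin.addCases (fun a' => ?_) (fun i' => ?_) b
  · rw [Pi.add_apply, pos_left, pos_left, Pi.single_eq_of_ne, add_zero]
    intro h
    have := congrArg Fin.val h
    simp only [Fin.val_natAdd, Fin.val_castAdd] at this
    omega
  · by_cases h1 : i' = i
    · subst h1
      rw [pos_add_right, pos_right]
      change _ = (((Function.update x.2 i' a) i' : ℕ) : ℤ) + 1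
      rw [Function.update_self, h]
      ring
    · rw [Pi.add_apply, pos_right, pos_right]
      change _ = (((Function.update x.2 i a) i' : ℕ) : ℤ) + 1
      rw [Function.update_of_ne h1, Pi.single_eq_of_ne, add_zero]
      intro h2
      apply h1
      have := congrArg Fin.val h2
      simp only [Fin.val_natAdd] at this
      exact Fin.ext (by omega)

/-- one thin direction -/
theorem ez_thin {M : Fin k → ℕ} (u : {j : Fin (2 + k) → ℤ // InS M j} → ℂ) (x : SX.St 2 (Fb M))
    (i : Fin k) : ez u (pos M x + Pi.single (Fin.natAdd 2 i) 1)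
        + ez u (pos M x + Pi.single (Fin.natAdd 2 i) (-1))
      = ∑ a : Fin (M i), if Na (x.2 i) a then u ((sE M).symm (x.1, Function.update x.2 i a))
        else 0 := by
  have h1 : ∀ b : Fin (M i), (if Na (x.2 i) b then u ((sE M).symm (x.1, Function.update x.2 i b))
        else 0)
      = (if (x.2 i : ℕ) + 1 = b then u ((sE M).symm (x.1, Function.update x.2 i b)) else 0)
        + (if (b : ℕ) + 1 = x.2 i then u ((sE M).symm (x.1, Function.update x.2 i b)) else 0) := by
    intro b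
    by_cases h : (x.2 i : ℕ) + 1 = b
    · have h' : ¬ (b : ℕ) + 1 = x.2 i := by omega
      have h2 : Na (x.2 i) b := Or.inl h
      rw [if_pos h2, if_pos h, if_neg h', add_zero]
    · by_cases h' : (b : ℕ) + 1 = x.2 i
      · have h2 : Na (x.2 i) b := Or.inr h'
        rw [if_pos h2, if_neg h, if_pos h', zero_add]
      · have h2 : ¬ Na (x.2 i) b := fun h2 => h2.elim h h'
        rw [if_neg h2, if_neg h, if_neg h', add_zero]
  rw [Finset.sum_congr rfl fun b _ => h1 b, Finset.sum_add_distrib]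
  congr 1
  · by_cases h : (x.2 i : ℕ) + 1 < M i
    · rw [Finset.sum_eq_single (⟨(x.2 i : ℕ) + 1, h⟩ : Fin (M i))]
      · rw [if_pos rfl]
        refine ez_pos u _ (pos_update x i 1 _ ?_)
        simp
      · intro b _ hb
        rw [if_neg]
        intro h3
        exact hb (Fin.ext h3.symm)
      · intro h3
        exact absurd (Finset.mem_univ _) h3
    · rw [ez_neg]
      · symm
        refine Finset.sum_eq_zero fun b _ => ?_
        rw [if_neg]
        have := b.2
        omega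
      · intro h2
        have h3 := h2 i
        rw [pos_add_right] at h3
        have := (x.2 i).2
        omega
  · by_cases h : 1 ≤ (x.2 i : ℕ)
    · have hlt : (x.2 i : ℕ) - 1 < M i := by have := (x.2 i).2; omega
      rw [Finset.sum_eq_single (⟨(x.2 i : ℕ) - 1, hlt⟩ : Fin (M i))]
      · have h4 : ((⟨(x.2 i : ℕ) - 1, hlt⟩ : Fin (M i)) : ℕ) + 1 = x.2 i := by
          simp only
          omega
        rw [if_pos h4]
        refine ez_pos u _ (pos_update x i (-1) _ ?_)
        simp only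
        omega
      · intro b _ hb
        rw [if_neg]
        intro h3
        apply hb
        apply Fin.ext
        simp only
        omega
      · intro h3
        exact absurd (Finset.mem_univ _) h3
    · rw [ez_neg]
      · symm
        refine Finset.sum_eq_zero fun b _ => ?_
        rw [if_neg]
        omega
      · intro h2
        have h3 := h2 i
        rw [pos_add_right] at h3
        omega

/-- the operator in the coordinates of `ℤ^(2+k)` -/
theorem slab_apply {M : Fin k → ℕ} {c : ℝ} (ω : {j : Fin (2 + k) → ℤ // InS M j} → ℝ)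
    (hω : ∀ j, ω j ∈ Icc (-c) c) (u : L2 {j : Fin (2 + k) → ℤ // InS M j})
    (j : {j : Fin (2 + k) → ℤ // InS M j}) :
    trL (sE M) (HS (2 * k) c fun x => ω ((sE M).symm x)) u j
      = -∑ i : Fin (2 + k), ((ez u (j.1 + Pi.single i 1) - u j) + (ez u (j.1 - Pi.single i 1) - u j))
        + (ω j : ℂ) * u j := by
  obtain ⟨x, rfl⟩ : ∃ x, j = (sE M).symm x := ⟨sE M j, ((sE M).symm_apply_apply j).symm⟩
  rw [trL_apply, compL_apply, Equiv.apply_symm_apply, HS_apply, clp_of_mem (hω _), compL_apply,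
    sE_symm_val]
  have h0 : ∀ i : Fin (2 + k), (ez u (pos M x + Pi.single i 1) - u ((sE M).symm x))
      + (ez u (pos M x - Pi.single i 1) - u ((sE M).symm x))
      = (ez u (pos M x + Pi.single i 1) + ez u (pos M x + Pi.single i (-1)))
        - 2 * u ((sE M).symm x) := by
    intro i
    rw [sub_eq_add_neg (pos M x), ← Pi.single_neg]
    ring
  rw [Finset.sum_congr rfl fun i _ => h0 i, Finset.sum_sub_distrib, Finset.sum_const,
    Finset.card_univ, Fintype.card_fin, nsmul_eq_mul, Fin.sum_univ_add]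
  unfold SX.nbs
  have h1 : ∑ a : Fin 2, (ez u (pos M x + Pi.single (Fin.castAdd k a) 1)
      + ez u (pos M x + Pi.single (Fin.castAdd k a) (-1)))
      = GD.nbs (fun y => compL (sE M).symm u (y, x.2)) x.1 := by
    unfold GD.nbs
    refine Finset.sum_congr rfl fun a _ => ?_
    rw [ez_long, ez_long]
    rfl
  have h2 : ∑ i : Fin k, (ez u (pos M x + Pi.single (Fin.natAdd 2 i) 1)
      + ez u (pos M x + Pi.single (Fin.natAdd 2 i) (-1)))
      = SX.tb (fun g => compL (sE M).symm u (x.1, g)) x.2 := by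
    rw [tb_Fb]
    refine Finset.sum_congr rfl fun i _ => ?_
    rw [ez_thin]
    rfl
  rw [h1, h2]
  push_cast
  ring

end slab

end Pool.Agent.Lib.MP_562b47_mp.SG
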