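import Mathlib
import Pool.Agent.Lib.MP_562b47_mp.SG.Slab

/-!
MP_562b47: the slab, final form, from the box bounds.
-/

open MeasureTheory Set Filter Topology Complex
open scoped Real ENNReal NNReal InnerProductSpace

namespace Pool.Agent.Lib.MP_562b47_mp.SG

open Pool.Agent.Lib.MP_562b47_mp

/-- box bounds at all energies imply purely singular spectrum of the slab operator -/
theorem slab_sing {k : ℕ} {M : Fin k → ℕ} {c : ℝ} (hc : 0 < c)
    (h : ∀ Es ∈ Ioo ((2 * k : ℝ) - lam1 M - c) (8 + 2 * k + lam1 M + c),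
      ∃ δ C a₀ : ℝ, 0 < δ ∧ 0 < a₀ ∧
      ∀ E : ℝ, |E - Es| < δ → ∀ a : ℝ, 0 < a → a < a₀ → ∃ n₀ : ℕ, ∀ n ≥ n₀,
        ∫ V, AL.DU (Ab 2 (Fb M) (2 * k) E n) (xb 2 (Fb M) n)
          (fun x => ((V x : ℝ) : ℂ) - a * Complex.I)
          ∂(Measure.pi fun _ : (Fin 2 → Fin n) × Fb M => unif c) ≤ C * (n : ℝ) ^ 2) :
    ∀ᵐ ω ∂(PP {j : Fin (2 + k) → ℤ // InS M j} c),
      ∃ H : L2 {j : Fin (2 + k) → ℤ // InS M j} →L[ℂ] L2 {j : Fin (2 + k) → ℤ // InS M j},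
      (∀ u j, H u j = -∑ i : Fin (2 + k),
        ((ez u (j.1 + Pi.single i 1) - u j) + (ez u (j.1 - Pi.single i 1) - u j))
        + (ω j : ℂ) * u j) ∧ IsSelfAdjoint H ∧
      ∀ u, ∃ μ : Measure ℝ, (IsFiniteMeasure μ ∧ IsSpec H u μ) ∧ μ ⟂ₘ volume := by
  have := unif_prob hc
  have h1 := singV_of_box hc (numRad_Fb M) h
  have hmp : MeasurePreserving
      (fun (ω : {j : Fin (2 + k) → ℤ // InS M j} → ℝ) => fun x => ω ((sE M).symm x))
      (PP {j : Fin (2 + k) → ℤ // InS M j} c) (PP (SX.St 2 (Fb M)) c) :=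
    mp_equiv (unif c) (sE M).symm
  have h2 := hmp.quasiMeasurePreserving.ae h1
  have h3 : ∀ᵐ ω ∂(PP {j : Fin (2 + k) → ℤ // InS M j} c), ∀ j, ω j ∈ Set.Icc (-c) c := by
    rw [ae_all_iff]
    intro j
    exact (measurePreserving_eval_infinitePi
      (fun _ : {j : Fin (2 + k) → ℤ // InS M j} => unif c) j).quasiMeasurePreserving.ae
        (ae_unif c)
  filter_upwards [h2, h3] with ω hω hω2
  have hsa := (modelS 2 (Fb M) (2 * k) hc).sa fun x => ω ((sE M).symm x)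
  have hsa' := isSelfAdjoint_trL (sE M) hsa
  refine ⟨trL (sE M) (HS (2 * k) c fun x => ω ((sE M).symm x)), fun u j => slab_apply ω hω2 u j,
    hsa', fun u => ?_⟩
  obtain ⟨μ, hfin, hμ⟩ := exists_isSpec hsa' u
  exact ⟨μ, ⟨hfin, hμ⟩, (singV_trL (sE M) hsa hω u).sing hsa' hμ⟩

end Pool.Agent.Lib.MP_562b47_mp.SG
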