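import Pool.Agent.Lib.MP_562b47_mp.SG.Op

/-!
MP_562b47, slabs, passage from boxes to the lattice: the deterministic comparison, and the Green
function of `ℤ^d × F`.
-/

open MeasureTheory Set Filter Topology Complex Matrix
open scoped Real ENNReal NNReal InnerProductSpace

set_option linter.unusedSectionVars false

namespace Pool.Agent.Lib.MP_562b47_mp.SG

open Pool.Agent.Lib.MP_562b47_mp Pool.Agent.Lib.MP_562b47_mp.AL

variable {d : ℕ} {F : Type} [Fintype F] [DecidableEq F] [SX.Thin F]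

/-! ### The sum over the neighbours as an operator -/

/-- the sum over the neighbours -/
noncomputable def nbL (d : ℕ) (F : Type) [Fintype F] [DecidableEq F] [SX.Thin F] :
    L2 (SX.St d F) →L[ℂ] L2 (SX.St d F) :=
  ((2 * d : ℝ) : ℂ) • ContinuousLinearMap.id ℂ (L2 (SX.St d F)) - KS d F 0

theorem nbL_apply (u : L2 (SX.St d F)) (x : SX.St d F) : nbL d F u x = SX.nbs u x := by
  unfold nbL
  rw [_root_.sub_apply, _root_.smul_apply, ContinuousLinearMap.id_apply, lp.coeFn_sub,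
    Pi.sub_apply, lp.coeFn_smul, Pi.smul_apply, KS_apply, smul_eq_mul]
  push_cast
  ring

/-- the square of its norm -/
noncomputable def NB (d : ℕ) (F : Type) [Fintype F] [DecidableEq F] [SX.Thin F] : ℝ :=
  ‖nbL d F‖ ^ 2

theorem NB_nonneg : 0 ≤ NB d F := by unfold NB; positivity

section det

variable {ι : Type*} [Fintype ι] [DecidableEq ι]

theorem sum_adj {pos : ι → SX.St d F} (hpos : Function.Injective pos) (ψ : SX.St d F → ℂ)
    (p : SX.St d F) [DecidablePred fun v => v ∈ Set.range pos] :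
    ∑ x', (if SX.adj p (pos x') then ψ (pos x') else 0)
      = SX.nbs (fun v => if v ∈ Set.range pos then ψ v else 0) p := by
  classical
  have h := SX.sum_adj (R := ℂ) (Finset.univ.map ⟨pos, hpos⟩)
    (fun v => if v ∈ Set.range pos then ψ v else 0) (fun v hv => by
      rw [if_neg]
      rintro ⟨x, rfl⟩
      exact hv (Finset.mem_map.mpr ⟨x, Finset.mem_univ _, rfl⟩)) p 1
  rw [one_mul] at h
  rw [← h, Finset.sum_map]
  refine Finset.sum_congr rfl fun x _ => ?_
  simp only [Function.Embedding.coeFn_mk]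
  rw [if_pos (Set.mem_range_self x)]
  split_ifs <;> simp

theorem sum_nbs_le {pos : ι → SX.St d F} (hpos : Function.Injective pos)
    {φ : SX.St d F → ℂ} (hφ : Summable fun v => ‖φ v‖ ^ 2) :
    ∑ x, ‖SX.nbs φ (pos x)‖ ^ 2 ≤ NB d F * ∑' v, ‖φ v‖ ^ 2 := by
  classical
  set u : L2 (SX.St d F) := ⟨φ, memL2_of_summable hφ⟩ with hu
  have hu1 : ∀ v, u v = φ v := fun v => rfl
  have h1 : ∀ v, nbL d F u v = SX.nbs φ v := fun v => nbL_apply u v
  have h2 : ∑ x, ‖SX.nbs φ (pos x)‖ ^ 2 ≤ ∑' v, ‖nbL d F u v‖ ^ 2 := by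
    have h3 : ∑ x, ‖SX.nbs φ (pos x)‖ ^ 2
        = ∑ v ∈ Finset.univ.map ⟨pos, hpos⟩, ‖nbL d F u v‖ ^ 2 := by
      rw [Finset.sum_map]
      refine Finset.sum_congr rfl fun x _ => ?_
      rw [h1]
      rfl
    rw [h3]
    exact (L2_summable (nbL d F u)).sum_le_tsum _ fun v _ => by positivity
  rw [← L2_norm_sq] at h2
  refine h2.trans ?_
  have h4 : ∑' v, ‖φ v‖ ^ 2 = ‖u‖ ^ 2 := (L2_norm_sq u).symm
  rw [h4]
  unfold NB
  rw [← mul_pow]
  exact pow_le_pow_left₀ (norm_nonneg _) (ContinuousLinearMap.le_opNorm _ _) 2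

theorem A_symm {pos : ι → SX.St d F} {A : Matrix ι ι ℝ} {κ E : ℝ}
    (hA : ∀ x y, A x y = if x = y then 2 * d + κ - E else if SX.adj (pos x) (pos y) then -1 else 0) :
    A.IsSymm := by
  ext x y
  rw [transpose_apply, hA, hA]
  by_cases h : x = y
  · subst h; rfl
  · rw [if_neg h, if_neg (Ne.symm h)]
    by_cases h' : SX.adj (pos x) (pos y)
    · rw [if_pos h', if_pos (SX.adj_symm h')]
    · rw [if_neg h', if_neg (fun h2 => h' (SX.adj_symm h2))]

open Classical in
/-- **Comparison.** `ψ` = a column of the Green function of the lattice. -/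
theorem det_compare {pos : ι → SX.St d F} (hpos : Function.Injective pos)
    {A : Matrix ι ι ℝ} {κ E a : ℝ} (ha : 0 < a)
    (hA : ∀ x y, A x y = if x = y then 2 * d + κ - E else if SX.adj (pos x) (pos y) then -1 else 0)
    (V : ι → ℝ) {ψ : SX.St d F → ℂ} (hψ : Summable fun v => ‖ψ v‖ ^ 2) (y : ι)
    (heq : ∀ x : ι, ((2 * d + κ + V x - E : ℝ) - a * Complex.I : ℂ) * ψ (pos x)
      - SX.nbs ψ (pos x) = if x = y then 1 else 0) :
    ∑ x, ‖ψ (pos x) - GM A (fun x => (V x : ℂ) - a * Complex.I) x y‖ ^ 2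
      ≤ NB d F / a ^ 2 * ∑' v, (if v ∈ Set.range pos then 0 else ‖ψ v‖ ^ 2) := by
  set u : ι → ℂ := fun x => (V x : ℂ) - a * Complex.I with hu
  have hs : A.IsSymm := A_symm hA
  have him : ∀ x, (u x).im = -a := fun x => by simp [hu]
  have hl : Loss u := fun x => by rw [him x]; linarith
  set φ : SX.St d F → ℂ := fun v => if v ∈ Set.range pos then 0 else ψ v with hφ
  have hφs : Summable fun v => ‖φ v‖ ^ 2 := by
    refine Summable.of_nonneg_of_le (fun v => by positivity) (fun v => ?_) hψ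
    simp only [hφ]
    split_ifs
    · simp
    · exact le_rfl
  have hrow : ∀ x, ∑ x', HM A u x x' * ψ (pos x')
      = (if x = y then 1 else 0) + SX.nbs φ (pos x) := by
    intro x
    have h1 : ∀ x', HM A u x x' * ψ (pos x')
        = (if x = x' then ((2 * d + κ - E : ℝ) + u x) * ψ (pos x) else 0)
        - (if SX.adj (pos x) (pos x') then ψ (pos x') else 0) := by
      intro x'
      rw [HM_apply, hA]
      by_cases h : x = x'
      · subst h
        rw [if_pos rfl, if_pos rfl, if_pos rfl, if_neg SX.adj_irrefl]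
        ring
      · rw [if_neg h, if_neg h, if_neg h]
        split_ifs <;> push_cast <;> ring
    simp only [h1]
    rw [Finset.sum_sub_distrib, Finset.sum_ite_eq, if_pos (Finset.mem_univ _),
      sum_adj hpos ψ (pos x)]
    have h2 := heq x
    have h3 : SX.nbs ψ (pos x) = SX.nbs (fun v => if v ∈ Set.range pos then ψ v else 0) (pos x)
        + SX.nbs φ (pos x) := by
      rw [← SX.nbs_add]
      congr 1
      funext v
      simp only [hφ]
      split_ifs <;> simp
    rw [h3] at h2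
    have h5 : ((2 * d + κ - E : ℝ) + u x : ℂ) = ((2 * d + κ + V x - E : ℝ) - a * Complex.I : ℂ) := by
      simp only [hu]; push_cast; ring
    rw [h5]
    linear_combination h2
  have hG : ∀ x, ∑ x', HM A u x x' * GM A u x' y = if x = y then 1 else 0 := by
    intro x
    have h := congrFun (congrFun (HM_mul_GM hs hl) x) y
    rw [mul_apply, one_apply] at h
    exact h
  have hw := BX.norm_le_of_eq hs ha him (fun x => ψ (pos x) - GM A u x y)
    (fun x => SX.nbs φ (pos x)) (fun x => by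
      simp only [mul_sub, Finset.sum_sub_distrib]
      rw [hrow, hG]
      ring)
  refine hw.trans ?_
  have h6 := sum_nbs_le hpos hφs
  have h7 : ∑' v, ‖φ v‖ ^ 2 = ∑' v, (if v ∈ Set.range pos then 0 else ‖ψ v‖ ^ 2) := by
    refine tsum_congr fun v => ?_
    simp only [hφ]
    split_ifs <;> simp
  rw [h7] at h6
  calc (∑ x, ‖SX.nbs φ (pos x)‖ ^ 2) / a ^ 2
      ≤ (NB d F * ∑' v, (if v ∈ Set.range pos then 0 else ‖ψ v‖ ^ 2)) / a ^ 2 := by gcongr
    _ = _ := by ring

end det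

/-! ### The Green function of the lattice -/

/-- Green function -/
noncomputable def Gp (κ c : ℝ) (z : ℂ) (w : SX.St d F → ℝ) (v y : SX.St d F) : ℂ :=
  Gr eb (HS κ c) w z v y

variable {κ c : ℝ} {z : ℂ}

theorem Gp_coe (w : SX.St d F → ℝ) (v y : SX.St d F) :
    Gp κ c z w v y = Rv (HS κ c w) z (eb y) v := by
  unfold Gp Gr
  rw [inner_eb]

theorem Gp_hasSum (hc : 0 < c) (w : SX.St d F → ℝ) (y : SX.St d F) :
    HasSum (fun v => ‖Gp κ c z w v y‖ ^ 2) (‖Rv (HS κ c w) z (eb y)‖ ^ 2) :=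
  (modelS d F κ hc).parseval_norm (Rv (HS κ c w) z (eb y))

theorem Gp_summable (hc : 0 < c) (w : SX.St d F → ℝ) (y : SX.St d F) :
    Summable fun v => ‖Gp κ c z w v y‖ ^ 2 := (Gp_hasSum hc w y).summable

theorem Gp_eq (hc : 0 < c) (hz : 0 < z.im) (w : SX.St d F → ℝ) (y v : SX.St d F) :
    (((2 * d + κ + clp c (w v) : ℝ) : ℂ) - z) * Gp κ c z w v y
      - SX.nbs (fun v => Gp κ c z w v y) v = if v = y then 1 else 0 := by
  have h := H_Rv_apply ((modelS d F κ hc).sa w) hz.ne' (eb y)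
  have h1 := congrArg (fun u : L2 (SX.St d F) => u v) h
  simp only [lp.coeFn_add, Pi.add_apply, lp.coeFn_smul, Pi.smul_apply, smul_eq_mul] at h1
  rw [HS_apply, eb_apply] at h1
  have h2 : (fun v => Gp κ c z w v y) = fun v => Rv (HS κ c w) z (eb y) v := by
    funext v
    rw [Gp_coe]
  rw [Gp_coe, h2]
  linear_combination h1

theorem measurable_Gp (hc : 0 < c) (hz : 0 < z.im) (v y : SX.St d F) :
    Continuous fun w => Gp κ c z w v y :=
  (modelS d F κ hc).continuous_Gr continuous_id continuous_const (fun _ => hz) _ _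

theorem measurable_Gp_sq (hc : 0 < c) (hz : 0 < z.im) (v y : SX.St d F) :
    Measurable fun w => ‖Gp κ c z w v y‖ₑ ^ 2 :=
  ((measurable_Gp hc hz v y).enorm.measurable).pow_const 2

/-- `E |G(v, (0,o))|²` -/
noncomputable def gf (κ c : ℝ) (z : ℂ) (o : F) (v : SX.St d F) : ℝ≥0∞ :=
  ∫⁻ w, ‖Gp κ c z w v ((0 : Fin d → ℤ), o)‖ₑ ^ 2 ∂(PP (SX.St d F) c)

theorem gf_eq (hc : 0 < c) (hz : 0 < z.im) (v y : SX.St d F) :
    ∫⁻ w, ‖Gp κ c z w v y‖ₑ ^ 2 ∂(PP (SX.St d F) c) = gf κ c z y.2 (v.1 - y.1, v.2) := by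
  have := unif_prob hc
  have hmp := mp_perm (unif c) (shE F y.1 : Equiv.Perm (SX.St d F))
  have h3 : ∀ w, ‖Gp κ c z w v y‖ₑ ^ 2
      = ‖Gp κ c z (fun j => w (shE F y.1 j)) (v.1 - y.1, v.2) (0, y.2)‖ₑ ^ 2 := by
    intro w
    unfold Gp
    rw [covS hc y.1 w hz]
    simp only [sub_add_cancel, zero_add, Prod.mk.eta]
  rw [lintegral_congr h3]
  unfold gf PP
  exact hmp.lintegral_comp (measurable_Gp_sq hc hz (v.1 - y.1, v.2) (0, y.2))

theorem gf_sum (hc : 0 < c) (hz : 0 < z.im) (o : F) :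
    ∑' v : SX.St d F, gf κ c z o v ≤ ENNReal.ofReal (1 / z.im ^ 2) := by
  have := PP_prob (SX.St d F) hc
  unfold gf
  rw [← lintegral_tsum fun v => (measurable_Gp_sq hc hz v (0, o)).aemeasurable]
  have h1 : ∀ w, ∑' v, ‖Gp (d := d) κ c z w v ((0 : Fin d → ℤ), o)‖ₑ ^ 2
      ≤ ENNReal.ofReal (1 / z.im ^ 2) := by
    intro w
    have h2 := Gp_hasSum (d := d) (κ := κ) (z := z) hc w ((0 : Fin d → ℤ), o)
    have h3 : ∑' v, ‖Gp (d := d) κ c z w v ((0 : Fin d → ℤ), o)‖ₑ ^ 2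
        = ENNReal.ofReal (‖Rv (HS κ c w) z (eb ((0 : Fin d → ℤ), o))‖ ^ 2) := by
      rw [← h2.tsum_eq, ENNReal.ofReal_tsum_of_nonneg (fun y => by positivity) h2.summable]
      refine tsum_congr fun v => ?_
      rw [ENNReal.ofReal_pow (norm_nonneg _), ofReal_norm]
    rw [h3]
    refine ENNReal.ofReal_le_ofReal ?_
    have h4 := norm_Rv_le ((modelS d F κ hc).sa w) hz.ne' (eb ((0 : Fin d → ℤ), o))
    rw [(modelS d F κ hc).ortho.1, abs_of_pos hz] at h4
    rw [le_div_iff₀ (by positivity), ← mul_pow]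
    refine pow_le_one₀ (by positivity) ?_
    linarith
  calc ∫⁻ w, ∑' v, ‖Gp (d := d) κ c z w v ((0 : Fin d → ℤ), o)‖ₑ ^ 2 ∂(PP (SX.St d F) c)
      ≤ ∫⁻ _w, ENNReal.ofReal (1 / z.im ^ 2) ∂(PP (SX.St d F) c) := lintegral_mono h1
    _ = _ := by simp

theorem gf_ne_top (hc : 0 < c) (hz : 0 < z.im) (o : F) (v : SX.St d F) : gf κ c z o v ≠ ⊤ :=
  ne_top_of_le_ne_top ENNReal.ofReal_ne_top ((ENNReal.le_tsum v).trans (gf_sum hc hz o))

/-- small tail -/
theorem gf_tail (hc : 0 < c) (hz : 0 < z.im) (o : F) {ε : ℝ≥0∞} (hε : 0 < ε) :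
    ∃ T : Finset (SX.St d F), ∑' v, (if v ∈ T then 0 else gf κ c z o v) ≤ ε := by
  have h1 := ENNReal.tendsto_tsum_compl_atTop_zero
    (ne_top_of_le_ne_top ENNReal.ofReal_ne_top (gf_sum (d := d) (κ := κ) (c := c) (z := z) hc hz o))
  obtain ⟨T, hT⟩ := ((ENNReal.tendsto_nhds_zero.mp h1) ε hε).exists
  refine ⟨T, le_trans (le_of_eq ?_) hT⟩
  refine Eq.trans ?_ (tsum_subtype ({v | v ∉ T} : Set (SX.St d F)) (gf κ c z o)).symm
  refine tsum_congr fun v => ?_
  by_cases h : v ∈ T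
  · rw [if_pos h, indicator_of_notMem]
    simpa using h
  · rw [if_neg h, indicator_of_mem]
    simpa using h

end Pool.Agent.Lib.MP_562b47_mp.SG
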